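import Pool.Agent.Work.MP_1ce445_ple.Interface
import Pool.Agent.Work.MP_1ce445_fx.GS2

/-!
ABS (helper53): from a structure `Stru` to a factorization and the lower bound of `P`.
-/

namespace Pool.Agent.Work.MP_1ce445_ple

open Finset Pool.Agent.Work.MP_1ce445_co_56 Pool.Agent.Work.MP_1ce445_lin
  Pool.Agent.Work.MP_1ce445_fx Pool.Agent.Work.MP_1ce445_stm Pool.Agent.Work.MP_1ce445_plt
  Pool.Agent.Work.MP_1ce445_pln

/-- The relations of the factors. -/
def ABS_rel {V : Type} {M c t : ℕ} (pt : V → Fin M) (χ : V → V → Option (Fin c))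
    (ins : V → V → Option (Fin t ⊕ Fin M)) : Fin c ⊕ (Fin t ⊕ Fin M) → V → V → Prop
  | Sum.inl a, u, v => χ u v = some a
  | Sum.inr (Sum.inl l), u, v => ins u v = some (Sum.inl l)
  | Sum.inr (Sum.inr j), u, v => ins u v = some (Sum.inr j) ∨
      (u ≠ v ∧ pt u = j ∧ pt v = j ∧ χ u v = none ∧ ins u v = none)

/-- The factors. -/
def ABS_G {V : Type} {M c t : ℕ} (pt : V → Fin M) (χ : V → V → Option (Fin c))
    (ins : V → V → Option (Fin t ⊕ Fin M)) (i : Fin c ⊕ (Fin t ⊕ Fin M)) : SimpleGraph V :=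
  SimpleGraph.fromRel (ABS_rel pt χ ins i)

section
variable {V : Type} {M c t r : ℕ} {pt : V → Fin M} {χ : V → V → Option (Fin c)}
    {ins : V → V → Option (Fin t ⊕ Fin M)}

lemma ABS_adj (h : Stru M c t r pt χ ins) (i : Fin c ⊕ (Fin t ⊕ Fin M)) (u v : V) :
    (ABS_G pt χ ins i).Adj u v ↔ ABS_rel pt χ ins i u v := by
  have hs : ∀ u v, ABS_rel pt χ ins i u v → ABS_rel pt χ ins i v u := by
    intro u v huv
    rcases i with a | l | j
    · have h1 : χ u v = some a := huv
      show χ v u = some a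
      rw [h.csym]
      exact h1
    · have h1 : ins u v = some (Sum.inl l) := huv
      show ins v u = some (Sum.inl l)
      rw [h.isym]
      exact h1
    · have h1 : ins u v = some (Sum.inr j) ∨
        (u ≠ v ∧ pt u = j ∧ pt v = j ∧ χ u v = none ∧ ins u v = none) := huv
      show ins v u = some (Sum.inr j) ∨
        (v ≠ u ∧ pt v = j ∧ pt u = j ∧ χ v u = none ∧ ins v u = none)
      rw [h.isym v u, h.csym v u]
      rcases h1 with h1 | ⟨h1, h2, h3, h4, h5⟩
      · exact Or.inl h1
      · exact Or.inr ⟨h1.symm, h3, h2, h4, h5⟩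
  have hi : ∀ u, ¬ ABS_rel pt χ ins i u u := by
    intro u huu
    rcases i with a | l | j
    · have h1 : χ u u = some a := huu
      rw [h.cirr] at h1
      cases h1
    · have h1 : ins u u = some (Sum.inl l) := huu
      rw [h.iirr] at h1
      cases h1
    · have h1 : ins u u = some (Sum.inr j) ∨
        (u ≠ u ∧ pt u = j ∧ pt u = j ∧ χ u u = none ∧ ins u u = none) := huu
      rcases h1 with h1 | h1
      · rw [h.iirr] at h1
        cases h1
      · exact h1.1 rfl
  unfold ABS_G
  rw [SimpleGraph.fromRel_adj]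
  constructor
  · rintro ⟨-, h1 | h1⟩
    · exact h1
    · exact hs _ _ h1
  · intro h1
    refine ⟨?_, Or.inl h1⟩
    rintro rfl
    exact hi _ h1

lemma ABS_fac (h : Stru M c t r pt χ ins) : IsFactorization (ABS_G pt χ ins) := by
  apply IsFactorization.of_adj
  · intro i j v w hi hj
    rw [ABS_adj h] at hi hj
    have key : ∀ b, ins v w = some b → χ v w = none :=
      fun b hb => (h.iin v w (by rw [hb]; exact Option.some_ne_none _)).2
    rcases i with a | l | j1 <;> rcases j with a' | l' | j1'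
    · have h1 : χ v w = some a := hi
      have h2 : χ v w = some a' := hj
      rw [h1] at h2
      rw [Option.some_inj.1 h2]
    · exfalso
      have h1 : χ v w = some a := hi
      have h2 : ins v w = some (Sum.inl l') := hj
      rw [key _ h2] at h1
      cases h1
    · exfalso
      have h1 : χ v w = some a := hi
      have h2 : ins v w = some (Sum.inr j1') ∨
        (v ≠ w ∧ pt v = j1' ∧ pt w = j1' ∧ χ v w = none ∧ ins v w = none) := hj
      rcases h2 with h2 | ⟨-, -, -, h2, -⟩
      · rw [key _ h2] at h1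
        cases h1
      · rw [h2] at h1
        cases h1
    · exfalso
      have h1 : ins v w = some (Sum.inl l) := hi
      have h2 : χ v w = some a' := hj
      rw [key _ h1] at h2
      cases h2
    · have h1 : ins v w = some (Sum.inl l) := hi
      have h2 : ins v w = some (Sum.inl l') := hj
      rw [h1] at h2
      rw [Option.some_inj.1 h2]
    · exfalso
      have h1 : ins v w = some (Sum.inl l) := hi
      have h2 : ins v w = some (Sum.inr j1') ∨
        (v ≠ w ∧ pt v = j1' ∧ pt w = j1' ∧ χ v w = none ∧ ins v w = none) := hj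
      rcases h2 with h2 | ⟨-, -, -, -, h2⟩
      · rw [h1] at h2
        cases h2
      · rw [h1] at h2
        cases h2
    · exfalso
      have h1 : ins v w = some (Sum.inr j1) ∨
        (v ≠ w ∧ pt v = j1 ∧ pt w = j1 ∧ χ v w = none ∧ ins v w = none) := hi
      have h2 : χ v w = some a' := hj
      rcases h1 with h1 | ⟨-, -, -, h1, -⟩
      · rw [key _ h1] at h2
        cases h2
      · rw [h1] at h2
        cases h2
    · exfalso
      have h1 : ins v w = some (Sum.inr j1) ∨
        (v ≠ w ∧ pt v = j1 ∧ pt w = j1 ∧ χ v w = none ∧ ins v w = none) := hi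
      have h2 : ins v w = some (Sum.inl l') := hj
      rcases h1 with h1 | ⟨-, -, -, -, h1⟩
      · rw [h1] at h2
        cases h2
      · rw [h1] at h2
        cases h2
    · have h1 : ins v w = some (Sum.inr j1) ∨
        (v ≠ w ∧ pt v = j1 ∧ pt w = j1 ∧ χ v w = none ∧ ins v w = none) := hi
      have h2 : ins v w = some (Sum.inr j1') ∨
        (v ≠ w ∧ pt v = j1' ∧ pt w = j1' ∧ χ v w = none ∧ ins v w = none) := hj
      rcases h1 with h1 | ⟨-, h1, -, -, h1'⟩
      · rcases h2 with h2 | ⟨-, -, -, -, h2⟩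
        · rw [h1] at h2
          rw [Option.some_inj.1 h2]
        · rw [h1] at h2
          cases h2
      · rcases h2 with h2 | ⟨-, h2, -, -, -⟩
        · rw [h1'] at h2
          cases h2
        · rw [← h1, ← h2]
  · intro v w hvw
    rcases hc : χ v w with _ | a
    · have hpt : pt v = pt w := by
        by_contra hne
        exact h.ccrs v w hne hc
      rcases hi : ins v w with _ | (l | j)
      · refine ⟨Sum.inr (Sum.inr (pt v)), ?_⟩
        rw [ABS_adj h]
        exact Or.inr ⟨hvw, rfl, hpt.symm, hc, hi⟩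
      · refine ⟨Sum.inr (Sum.inl l), ?_⟩
        rw [ABS_adj h]
        exact hi
      · refine ⟨Sum.inr (Sum.inr j), ?_⟩
        rw [ABS_adj h]
        exact Or.inl hi
    · refine ⟨Sum.inl a, ?_⟩
      rw [ABS_adj h]
      exact hc
  · intro i v
    rcases i with a | l | j
    · obtain ⟨w, hw⟩ := h.cex v a
      refine ⟨w, ?_⟩
      rw [ABS_adj h]
      exact hw
    · obtain ⟨w, hw⟩ := h.iex v (Sum.inl l)
      refine ⟨w, ?_⟩
      rw [ABS_adj h]
      exact hw
    · obtain ⟨w, hw⟩ := h.iex v (Sum.inr j)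
      refine ⟨w, ?_⟩
      rw [ABS_adj h]
      exact Or.inl hw

variable [Fintype V] [DecidableEq V]

lemma ABS_inl (h : Stru M c t r pt χ ins) (a : Fin c) :
    Fintype.card V ≤ gammaT (ABS_G pt χ ins (Sum.inl a)) := by
  refine GS2_match _ ((ABS_fac h).minDeg (Sum.inl a)) ?_
  intro v w w' h1 h2
  rw [ABS_adj h] at h1 h2
  exact h.cun v w w' a h1 h2

lemma ABS_inr (h : Stru M c t r pt χ ins) (l : Fin t) :
    Fintype.card V ≤ gammaT (ABS_G pt χ ins (Sum.inr (Sum.inl l))) := by
  refine GS2_match _ ((ABS_fac h).minDeg (Sum.inr (Sum.inl l))) ?_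
  intro v w w' h1 h2
  rw [ABS_adj h] at h1 h2
  exact h.iun v w w' (Sum.inl l) h1 h2

lemma ABS_spec (h : Stru M c t r pt χ ins) (hr : 1 ≤ r) (j : Fin M) :
    Fintype.card V - (univ.filter (fun v => pt v = j)).card + r ≤
      gammaT (ABS_G pt χ ins (Sum.inr (Sum.inr j))) := by
  obtain ⟨S, hS, hc⟩ := exists_tds (G := ABS_G pt χ ins (Sum.inr (Sum.inr j)))
    ((ABS_fac h).minDeg (Sum.inr (Sum.inr j)))
  rw [← hc]
  have hout : ∀ v : V, pt v ≠ j → v ∈ S := by
    intro v hv
    obtain ⟨w, hw⟩ := h.iex v (Sum.inr j)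
    have hpw : pt v = pt w := (h.iin v w (by rw [hw]; exact Option.some_ne_none _)).1
    obtain ⟨x, hx, hadj⟩ := hS w
    rw [ABS_adj h] at hadj
    have h1 : ins w x = some (Sum.inr j) ∨
        (w ≠ x ∧ pt w = j ∧ pt x = j ∧ χ w x = none ∧ ins w x = none) := hadj
    rcases h1 with h1 | ⟨-, h1, -⟩
    · have h2 : ins w v = some (Sum.inr j) := by
        rw [h.isym]
        exact hw
      have h3 : x = v := h.iun w x v (Sum.inr j) h1 h2
      rw [← h3]
      exact hx
    · exact absurd (hpw.trans h1) hv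
  have hTr : r ≤ (S.filter (fun v => pt v = j)).card := by
    by_contra hlt
    rw [not_le] at hlt
    obtain ⟨x, hxj, -, hx⟩ := h.good j (S.filter (fun v => pt v = j))
      (fun v hv => (mem_filter.1 hv).2) (by omega)
    obtain ⟨w, hw, hadj⟩ := hS x
    rw [ABS_adj h] at hadj
    have h1 : ins x w = some (Sum.inr j) ∨
        (x ≠ w ∧ pt x = j ∧ pt w = j ∧ χ x w = none ∧ ins x w = none) := hadj
    rcases h1 with h1 | ⟨-, -, h1, -, h2⟩
    · have h3 : pt x = pt w := (h.iin x w (by rw [h1]; exact Option.some_ne_none _)).1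
      obtain ⟨l, hl⟩ := hx w (mem_filter.2 ⟨hw, h3.symm.trans hxj⟩)
      rw [h1] at hl
      cases hl
    · obtain ⟨l, hl⟩ := hx w (mem_filter.2 ⟨hw, h1⟩)
      rw [h2] at hl
      cases hl
  have hsplit := Finset.card_filter_add_card_filter_not (s := (univ : Finset V)) (fun v => pt v = j)
  rw [card_univ] at hsplit
  have hsub : (univ.filter (fun v => ¬ pt v = j)) ∪ (S.filter (fun v => pt v = j)) ⊆ S := by
    intro v hv
    rw [mem_union] at hv
    rcases hv with hv | hv
    · exact hout v (mem_filter.1 hv).2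
    · exact (mem_filter.1 hv).1
  have hdis : Disjoint (univ.filter (fun v => ¬ pt v = j)) (S.filter (fun v => pt v = j)) := by
    rw [Finset.disjoint_left]
    intro v hv hv'
    exact (mem_filter.1 hv).2 (mem_filter.1 hv').2
  have hcard := card_le_card hsub
  rw [card_union_of_disjoint hdis] at hcard
  omega

end

theorem stmt_ABS : Stmt_ABS := by
  intro V _ _ M c t r pt χ ins hr h
  have hP := le_P (V := V) (ι := Fin c ⊕ (Fin t ⊕ Fin M)) (n := Fintype.card V) (k := c + t + M)
    rfl (by rw [Fintype.card_sum, Fintype.card_sum, Fintype.card_fin, Fintype.card_fin,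
      Fintype.card_fin, add_assoc]) (ABS_fac h)
  refine le_trans ?_ hP
  rw [Fintype.prod_sum_type, Fintype.prod_sum_type, pow_add, mul_assoc]
  have e1 : Fintype.card V ^ c ≤ ∏ a : Fin c, gammaT (ABS_G pt χ ins (Sum.inl a)) := by
    calc Fintype.card V ^ c = ∏ _a : Fin c, Fintype.card V := by
          rw [Finset.prod_const, card_univ, Fintype.card_fin]
      _ ≤ _ := Finset.prod_le_prod' fun a _ => ABS_inl h a
  have e2 : Fintype.card V ^ t ≤ ∏ l : Fin t, gammaT (ABS_G pt χ ins (Sum.inr (Sum.inl l))) := by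
    calc Fintype.card V ^ t = ∏ _a : Fin t, Fintype.card V := by
          rw [Finset.prod_const, card_univ, Fintype.card_fin]
      _ ≤ _ := Finset.prod_le_prod' fun l _ => ABS_inr h l
  have e3 : ∏ j, (Fintype.card V - (univ.filter (fun v => pt v = j)).card + r) ≤
      ∏ j : Fin M, gammaT (ABS_G pt χ ins (Sum.inr (Sum.inr j))) :=
    Finset.prod_le_prod' fun j _ => ABS_spec h hr j
  exact Nat.mul_le_mul e1 (Nat.mul_le_mul e2 e3)

end Pool.Agent.Work.MP_1ce445_ple
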