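import Pool.Agent.Work.MP_1ce445_ple.Interface
import Pool.Agent.Work.MP_1ce445_fx.SCR

/-!
Block BLO: deletion of `2 d` vertices of one block; the vertices which lose their partners are joined inside their
blocks (helper67).
-/

namespace Pool.Agent.Work.MP_1ce445_ple

open Finset Pool.Agent.Work.MP_1ce445_co_56 Pool.Agent.Work.MP_1ce445_lin
  Pool.Agent.Work.MP_1ce445_fx Pool.Agent.Work.MP_1ce445_stm Pool.Agent.Work.MP_1ce445_plt
  Pool.Agent.Work.MP_1ce445_pln

lemma BLO_cast {q x y : ℕ} (hx : x < q) (hy : y < q) (h : (x : ZMod q) = (y : ZMod q)) :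
    x = y := by
  have h1 := (ZMod.natCast_eq_natCast_iff' x y q).1 h
  rwa [Nat.mod_eq_of_lt hx, Nat.mod_eq_of_lt hy] at h1

/-- the deleted numbers -/
def BLO_u (d : ℕ) (p : ℕ × Bool) : ℕ :=
  4 * (d + 1) * p.1 + (if p.2 = true then 2 * p.1 + 1 else 0)

lemma BLO_rem {d : ℕ} {p : ℕ × Bool} (hp : p.1 < d) :
    (if p.2 = true then 2 * p.1 + 1 else 0) < 4 * (d + 1) := by
  split_ifs <;> omega

lemma BLO_u_lt {d q : ℕ} (hq : 8 * (d + 1) ^ 2 ≤ q) {p : ℕ × Bool} (hp : p.1 < d) :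
    BLO_u d p < q := by
  have h1 := BLO_rem hp
  have h2 : 4 * (d + 1) * p.1 ≤ 4 * (d + 1) * d := Nat.mul_le_mul_left _ hp.le
  have h3 : 4 * (d + 1) * d + 4 * (d + 1) ≤ 8 * (d + 1) ^ 2 := by nlinarith
  unfold BLO_u
  omega

lemma BLO_u_inj {d : ℕ} {p p' : ℕ × Bool} (hp : p.1 < d) (hp' : p'.1 < d)
    (h : BLO_u d p = BLO_u d p') : p = p' := by
  have h1 := BLO_rem hp
  have h2 := BLO_rem hp'
  unfold BLO_u at h
  have h3 : p.1 = p'.1 := by
    have e1 := congrArg (fun x => x / (4 * (d + 1))) h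
    simp only [Nat.mul_add_div (show 0 < 4 * (d + 1) by omega), Nat.div_eq_of_lt h1,
      Nat.div_eq_of_lt h2, add_zero] at e1
    exact e1
  obtain ⟨l, b⟩ := p
  obtain ⟨l', b'⟩ := p'
  simp only at h3
  subst h3
  cases b <;> cases b' <;> simp at h ⊢

/-- the deleted vertices -/
def BLO_U (d q : ℕ) : Finset (ZMod q) :=
  (range d ×ˢ (univ : Finset Bool)).image (fun p => ((BLO_u d p : ℕ) : ZMod q))

lemma BLO_U_card {d q : ℕ} (hq : 8 * (d + 1) ^ 2 ≤ q) : (BLO_U d q).card = 2 * d := by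
  unfold BLO_U
  rw [Finset.card_image_of_injOn]
  · rw [Finset.card_product, Finset.card_range, Finset.card_univ, Fintype.card_bool]
    ring
  · intro p hp p' hp' h
    have h1 : p.1 < d := by
      have := Finset.mem_coe.1 hp
      rw [Finset.mem_product, Finset.mem_range] at this
      exact this.1
    have h2 : p'.1 < d := by
      have := Finset.mem_coe.1 hp'
      rw [Finset.mem_product, Finset.mem_range] at this
      exact this.1
    exact BLO_u_inj h1 h2 (BLO_cast (BLO_u_lt hq h1) (BLO_u_lt hq h2) h)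

lemma BLO_mem_U {d q : ℕ} (x : ZMod q) :
    x ∈ BLO_U d q ↔ ∃ l : ℕ, l < d ∧ (x = ((4 * (d + 1) * l : ℕ) : ZMod q) ∨
      x = ((4 * (d + 1) * l + (2 * l + 1) : ℕ) : ZMod q)) := by
  unfold BLO_U
  rw [Finset.mem_image]
  constructor
  · rintro ⟨⟨l, b⟩, hp, hx⟩
    rw [Finset.mem_product, Finset.mem_range] at hp
    refine ⟨l, hp.1, ?_⟩
    cases b
    · left
      rw [← hx]
      simp [BLO_u]
    · right
      rw [← hx]
      simp [BLO_u]
  · rintro ⟨l, hl, hx | hx⟩
    · refine ⟨(l, false), ?_, ?_⟩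
      · rw [Finset.mem_product, Finset.mem_range]
        exact ⟨hl, Finset.mem_univ _⟩
      · rw [hx]
        simp [BLO_u]
    · refine ⟨(l, true), ?_, ?_⟩
      · rw [Finset.mem_product, Finset.mem_range]
        exact ⟨hl, Finset.mem_univ _⟩
      · rw [hx]
        simp [BLO_u]

/-- the pairs of the colour `(a, i)` -/
def BLO_Q {m d q : ℕ} (A : Fin (m + 1) × Bool → Fin (m + 1) × Bool → ZMod (2 * (m + 1) - 1))
    (u v : (Fin (m + 1) × Bool) × ZMod q) (a : ZMod (2 * (m + 1) - 1)) (i : ZMod q) : Prop :=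
  (u.1.1 ≠ v.1.1 ∧ A u.1 v.1 = a ∧ u.2 + v.2 = i) ∨
  (u.1 = v.1 ∧ u.1.1 ≠ 0 ∧ A (0, false) u.1 = a ∧ ∃ l : ℕ, l < d ∧
    ((v.2 = u.2 + ((2 * l + 1 : ℕ) : ZMod q) ∧ i = v.2 + ((4 * (d + 1) * l : ℕ) : ZMod q)) ∨
     (u.2 = v.2 + ((2 * l + 1 : ℕ) : ZMod q) ∧ i = u.2 + ((4 * (d + 1) * l : ℕ) : ZMod q))))

lemma BLO_odd {d q : ℕ} (hq : 8 * (d + 1) ^ 2 ≤ q) {l l' : ℕ} (hl : l < d) (hl' : l' < d)
    (h : ((2 * l + 1 : ℕ) : ZMod q) = ((2 * l' + 1 : ℕ) : ZMod q)) : l = l' := by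
  have h1 : 2 * (d + 1) ≤ 8 * (d + 1) ^ 2 := by nlinarith
  have h2 := BLO_cast (q := q) (by omega) (by omega) h
  omega

lemma BLO_neg {d q : ℕ} (hq : 8 * (d + 1) ^ 2 ≤ q) {l l' : ℕ} (hl : l < d) (hl' : l' < d)
    (h : ((2 * l + 1 : ℕ) : ZMod q) + ((2 * l' + 1 : ℕ) : ZMod q) = 0) : False := by
  have h1 : 4 * (d + 1) ≤ 8 * (d + 1) ^ 2 := by nlinarith
  rw [← Nat.cast_add, ← Nat.cast_zero] at h
  have h2 := BLO_cast (q := q) (by omega) (by omega) h
  omega

lemma BLO_nz {d q : ℕ} (hq : 8 * (d + 1) ^ 2 ≤ q) {l : ℕ} (hl : l < d)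
    (h : ((2 * l + 1 : ℕ) : ZMod q) = 0) : False := by
  have h1 : 4 * (d + 1) ≤ 8 * (d + 1) ^ 2 := by nlinarith
  rw [← Nat.cast_zero] at h
  have h2 := BLO_cast (q := q) (by omega) (by omega) h
  omega

lemma BLO_al {d q : ℕ} (hq : 8 * (d + 1) ^ 2 ≤ q) {l l' : ℕ} {b b' : Bool} (hl : l < d)
    (hl' : l' < d) (h : ((BLO_u d (l, b) : ℕ) : ZMod q) = ((BLO_u d (l', b') : ℕ) : ZMod q)) :
    l = l' ∧ b = b' := by
  have h1 := BLO_u_inj (p := (l, b)) (p' := (l', b')) hl hl'
    (BLO_cast (BLO_u_lt hq hl) (BLO_u_lt hq hl') h)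
  exact ⟨(Prod.ext_iff.1 h1).1, (Prod.ext_iff.1 h1).2⟩

lemma BLO_u_f (d l : ℕ) : BLO_u d (l, false) = 4 * (d + 1) * l := by simp [BLO_u]

lemma BLO_u_t (d l : ℕ) : BLO_u d (l, true) = 4 * (d + 1) * l + (2 * l + 1) := by simp [BLO_u]

theorem stmt_BLO : Stmt_BLO := by
  classical
  intro m d hm
  refine ⟨8 * (d + 1) ^ 2, ?_⟩
  intro q hq
  have hq0 : 0 < q := lt_of_lt_of_le (by positivity) hq
  have : NeZero (2 * (m + 1) - 1) := ⟨by omega⟩
  have : NeZero q := ⟨by omega⟩
  obtain ⟨A, hsym, hex, hun, hzero⟩ := SCR_K (m + 1) (by omega)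
  have hne : ∀ x y : Fin (m + 1) × Bool, x.1 ≠ y.1 → A x y ≠ 0 := by
    rintro ⟨i, b⟩ ⟨j, b'⟩ hij h0
    have h1 : A (i, b) (i, !b) = 0 := hzero i b (!b) (by cases b <;> simp)
    have h2 : (j, b') = (i, !b) := by
      apply hun (i, b) (j, b') (i, !b)
      · intro h
        exact hij (congrArg Prod.fst h).symm
      · intro h
        have := congrArg Prod.snd h
        revert this
        cases b <;> simp
      · rw [h0, h1]
    exact hij (congrArg Prod.fst h2).symm
  have he : Nonempty ({a : ZMod (2 * (m + 1) - 1) // a ≠ 0} × ZMod q ≃ Fin (2 * m * q)) := by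
    refine ⟨Fintype.equivOfCardEq ?_⟩
    rw [Fintype.card_prod, ZMod.card, Fintype.card_fin]
    congr 1
    rw [Fintype.card_subtype_compl, ZMod.card, Fintype.card_subtype_eq]
    omega
  obtain ⟨e⟩ := he
  -- symmetry and functionality
  have Qsym : ∀ u v a i, BLO_Q (d := d) (q := q) A u v a i → BLO_Q (d := d) (q := q) A v u a i := by
    rintro u v a i (⟨h1, h2, h3⟩ | ⟨h1, h2, h3, l, hl, h4 | h4⟩)
    · exact Or.inl ⟨fun h => h1 h.symm, by rw [hsym, h2], by rw [add_comm, h3]⟩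
    · exact Or.inr ⟨h1.symm, by rw [← h1]; exact h2, by rw [← h1]; exact h3, l, hl, Or.inr h4⟩
    · exact Or.inr ⟨h1.symm, by rw [← h1]; exact h2, by rw [← h1]; exact h3, l, hl, Or.inl h4⟩
  have Qfun : ∀ u v a i a' i', BLO_Q (d := d) (q := q) A u v a i →
      BLO_Q (d := d) (q := q) A u v a' i' → a = a' ∧ i = i' := by
    rintro u v a i a' i' (⟨h1, h2, h3⟩ | ⟨h1, h2, h3, l, hl, h4 | h4⟩)
      (⟨k1, k2, k3⟩ | ⟨k1, k2, k3, l', hl', k4 | k4⟩)
    · exact ⟨by rw [← h2, ← k2], by rw [← h3, ← k3]⟩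
    · exact absurd (congrArg Prod.fst k1) h1
    · exact absurd (congrArg Prod.fst k1) h1
    · exact absurd (congrArg Prod.fst h1) k1
    · have e1 : l = l' := BLO_odd hq hl hl' (by
        have := h4.1.symm.trans k4.1
        exact add_left_cancel this)
      subst e1
      exact ⟨by rw [← h3, ← k3], by rw [h4.2, k4.2]⟩
    · exact (BLO_neg hq hl hl' (by
        have e1 := h4.1
        rw [k4.1] at e1
        linear_combination -e1)).elim
    · exact absurd (congrArg Prod.fst h1) k1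
    · exact (BLO_neg hq hl hl' (by
        have e1 := h4.1
        rw [k4.1] at e1
        linear_combination -e1)).elim
    · have e1 : l = l' := BLO_odd hq hl hl' (by
        have := h4.1.symm.trans k4.1
        exact add_left_cancel this)
      subst e1
      exact ⟨by rw [← h3, ← k3], by rw [h4.2, k4.2]⟩
  have Qirr : ∀ u a i, ¬ BLO_Q (d := d) (q := q) A u u a i := by
    rintro u a i (⟨h1, _, _⟩ | ⟨_, _, _, l, hl, h4 | h4⟩)
    · exact h1 rfl
    · exact BLO_nz hq hl (by linear_combination -h4.1)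
    · exact BLO_nz hq hl (by linear_combination -h4.1)
  -- the colouring
  have hdef : ∃ χ : ((Fin (m + 1) × Bool) × ZMod q) → ((Fin (m + 1) × Bool) × ZMod q) →
      Option (Fin (2 * m * q)), ∀ u v c, χ u v = some c ↔
        BLO_Q (d := d) (q := q) A u v (e.symm c).1.1 (e.symm c).2 := by
    refine ⟨fun u v => if h : ∃ c, BLO_Q (d := d) (q := q) A u v (e.symm c).1.1 (e.symm c).2
      then some h.choose else none, ?_⟩
    intro u v c
    by_cases h : ∃ c, BLO_Q (d := d) (q := q) A u v (e.symm c).1.1 (e.symm c).2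
    · simp only [dif_pos h]
      constructor
      · intro h1
        rw [← Option.some.inj h1]
        exact h.choose_spec
      · intro h1
        obtain ⟨e1, e2⟩ := Qfun _ _ _ _ _ _ h.choose_spec h1
        congr 1
        apply e.symm.injective
        exact Prod.ext (Subtype.ext e1) e2
    · simp only [dif_neg h]
      constructor
      · intro h1
        exact absurd h1 (by simp)
      · intro h1
        exact absurd ⟨c, h1⟩ h
  obtain ⟨χ, hχ⟩ := hdef
  have hnn : ∀ u v, χ u v ≠ none → ∃ a i, BLO_Q (d := d) (q := q) A u v a i := by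
    intro u v h
    obtain ⟨c, hc⟩ := Option.ne_none_iff_exists'.1 h
    exact ⟨_, _, (hχ u v c).1 hc⟩
  have hsome : ∀ u v a i, (ha : a ≠ 0) → BLO_Q (d := d) (q := q) A u v a i →
      χ u v = some (e (⟨a, ha⟩, i)) := by
    intro u v a i ha h
    rw [hχ]
    simpa using h
  refine ⟨BLO_U d q, χ, BLO_U_card hq, ?_, ?_, ?_, ?_, ?_, ?_⟩
  · intro u v
    cases h : χ v u with
    | none =>
      cases h' : χ u v with
      | none => rfl
      | some c =>
        have h1 := (hχ v u c).2 (Qsym _ _ _ _ ((hχ u v c).1 h'))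
        rw [h] at h1
        exact absurd h1 (by simp)
    | some c => exact (hχ u v c).2 (Qsym _ _ _ _ ((hχ v u c).1 h))
  · intro u
    by_contra h
    obtain ⟨a, i, hQ⟩ := hnn u u h
    exact Qirr u a i hQ
  · intro u v _ _ huv
    rw [hsome u v (A u.1 v.1) (u.2 + v.2) (hne _ _ huv) (Or.inl ⟨huv, rfl, rfl⟩)]
    simp
  · intro u c hu
    obtain ⟨⟨⟨a, ha⟩, i⟩, hc⟩ : ∃ p, e p = c := ⟨e.symm c, e.apply_symm_apply c⟩
    obtain ⟨B', hB', hB'a⟩ := hex u.1 a
    have hj : u.1.1 ≠ B'.1 := by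
      intro hj
      apply ha
      rw [← hB'a]
      have h1 : u.1 = (u.1.1, u.1.2) := rfl
      have h2 : B' = (u.1.1, B'.2) := Prod.ext hj.symm rfl
      rw [h1, h2]
      apply hzero
      intro hb
      apply hB'
      exact Prod.ext hj.symm hb.symm
    by_cases hcase : B' = (0, false) ∧ i - u.2 ∈ BLO_U d q
    · obtain ⟨h0, hU⟩ := hcase
      have hu0 : u.1.1 ≠ 0 := by
        intro h
        apply hj
        rw [h, h0]
      have hAa : A (0, false) u.1 = a := by rw [hsym, ← h0, hB'a]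
      obtain ⟨l, hl, hx | hx⟩ := (BLO_mem_U _).1 hU
      · refine ⟨(u.1, u.2 - ((2 * l + 1 : ℕ) : ZMod q)), ?_, ?_⟩
        · rintro ⟨h1, _⟩
          exact hu0 (congrArg Prod.fst h1)
        · rw [← hc]
          apply hsome
          refine Or.inr ⟨rfl, hu0, hAa, l, hl, Or.inr ⟨?_, ?_⟩⟩
          · show u.2 = u.2 - ((2 * l + 1 : ℕ) : ZMod q) + ((2 * l + 1 : ℕ) : ZMod q)
            ring
          · show i = u.2 + ((4 * (d + 1) * l : ℕ) : ZMod q)
            rw [← hx]
            ring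
      · refine ⟨(u.1, u.2 + ((2 * l + 1 : ℕ) : ZMod q)), ?_, ?_⟩
        · rintro ⟨h1, _⟩
          exact hu0 (congrArg Prod.fst h1)
        · rw [← hc]
          apply hsome
          refine Or.inr ⟨rfl, hu0, hAa, l, hl, Or.inl ⟨rfl, ?_⟩⟩
          show i = u.2 + ((2 * l + 1 : ℕ) : ZMod q) + ((4 * (d + 1) * l : ℕ) : ZMod q)
          rw [Nat.cast_add] at hx
          linear_combination hx
    · refine ⟨(B', i - u.2), ?_, ?_⟩
      · rintro ⟨h1, h2⟩
        exact hcase ⟨h1, h2⟩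
      · rw [← hc]
        apply hsome
        refine Or.inl ⟨hj, hB'a, ?_⟩
        show u.2 + (i - u.2) = i
        ring
  · intro u v w c hu hv hw h1 h2
    have h3 := (hχ u v c).1 h1
    have h4 := (hχ u w c).1 h2
    have ha : (e.symm c).1.1 ≠ 0 := (e.symm c).1.2
    revert h3 h4 ha
    generalize (e.symm c).1.1 = a
    generalize (e.symm c).2 = i
    rintro (⟨p1, p2, p3⟩ | ⟨p1, p2, p3, l, hl, p4⟩) (⟨k1, k2, k3⟩ | ⟨k1, k2, k3, l', hl', k4⟩) ha
    · have e1 : v.1 = w.1 := hun u.1 v.1 w.1 (fun h => p1 (congrArg Prod.fst h).symm)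
        (fun h => k1 (congrArg Prod.fst h).symm) (by rw [p2, k2])
      exact Prod.ext e1 (add_left_cancel (p3.trans k3.symm))
    · exfalso
      have e1 : v.1 = (0, false) := hun u.1 v.1 (0, false)
        (fun h => p1 (congrArg Prod.fst h).symm) (fun h => k2 (congrArg Prod.fst h).symm)
        (by rw [p2, hsym u.1 (0, false), k3])
      apply hv
      refine ⟨e1, (BLO_mem_U _).2 ⟨l', hl', ?_⟩⟩
      rcases k4 with ⟨k4, k5⟩ | ⟨k4, k5⟩
      · right
        rw [Nat.cast_add]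
        linear_combination p3 + k5 + k4
      · left
        linear_combination p3 + k5
    · exfalso
      have e1 : w.1 = (0, false) := hun u.1 w.1 (0, false)
        (fun h => k1 (congrArg Prod.fst h).symm) (fun h => p2 (congrArg Prod.fst h).symm)
        (by rw [k2, hsym u.1 (0, false), p3])
      apply hw
      refine ⟨e1, (BLO_mem_U _).2 ⟨l, hl, ?_⟩⟩
      rcases p4 with ⟨p4, p5⟩ | ⟨p4, p5⟩
      · right
        rw [Nat.cast_add]
        linear_combination k3 + p5 + p4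
      · left
        linear_combination k3 + p5
    · have e0 : v.1 = w.1 := p1.symm.trans k1
      rcases p4 with ⟨p4, p5⟩ | ⟨p4, p5⟩ <;> rcases k4 with ⟨k4, k5⟩ | ⟨k4, k5⟩
      · obtain ⟨e1, _⟩ := BLO_al (b := true) (b' := true) hq hl hl' (by
          rw [BLO_u_t, BLO_u_t, Nat.cast_add, Nat.cast_add _ (2 * l' + 1)]
          linear_combination k5 - p5 + k4 - p4)
        subst e1
        exact Prod.ext e0 (by rw [p4, k4])
      · exfalso
        obtain ⟨_, e1⟩ := BLO_al (b := true) (b' := false) hq hl hl' (by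
          rw [BLO_u_t, BLO_u_f, Nat.cast_add]
          linear_combination k5 - p5 - p4)
        exact absurd e1 (by simp)
      · exfalso
        obtain ⟨_, e1⟩ := BLO_al (b := false) (b' := true) hq hl hl' (by
          rw [BLO_u_t, BLO_u_f, Nat.cast_add]
          linear_combination k5 - p5 + k4)
        exact absurd e1 (by simp)
      · obtain ⟨e1, _⟩ := BLO_al (b := false) (b' := false) hq hl hl' (by
          rw [BLO_u_f, BLO_u_f]
          linear_combination k5 - p5)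
        subst e1
        exact Prod.ext e0 (by linear_combination k4 - p4)
  · intro u v _ _ huv hne'
    obtain ⟨a, i, (⟨h1, _, _⟩ | ⟨h1, h2, _, l, hl, h4⟩)⟩ := hnn u v hne'
    · exact absurd huv h1
    · refine ⟨h1, h2, l, hl, ?_⟩
      rcases h4 with ⟨h4, _⟩ | ⟨h4, _⟩
      · exact Or.inl h4
      · exact Or.inr h4

end Pool.Agent.Work.MP_1ce445_ple
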