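import Pool.Agent.Work.MP_1ce445_ple.Interface
import Pool.Agent.Work.MP_1ce445_fx.GM1

/-!
CRX (helper53): transport of the block colouring BLO to the vertex set `VE` by the numbering of PSI.
-/

namespace Pool.Agent.Work.MP_1ce445_ple

open Finset Pool.Agent.Work.MP_1ce445_co_56 Pool.Agent.Work.MP_1ce445_lin
  Pool.Agent.Work.MP_1ce445_fx Pool.Agent.Work.MP_1ce445_stm Pool.Agent.Work.MP_1ce445_plt
  Pool.Agent.Work.MP_1ce445_pln

/-- The number of places of part `0` that are not deleted. -/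
lemma CRX_card {q d : ℕ} [NeZero q] (hd : d < q) (U : Finset (ZMod q)) (hU : U.card = 2 * d) :
    Nonempty (Option (ZMod (2 * (q - d) - 1)) ≃
      {z : Bool × ZMod q // ¬ (z.1 = false ∧ z.2 ∈ U)}) := by
  classical
  have : NeZero (2 * (q - d) - 1) := ⟨by omega⟩
  apply Fintype.card_eq.1
  rw [Fintype.card_option, ZMod.card, Fintype.card_subtype_compl, Fintype.card_prod, ZMod.card,
    Fintype.card_bool]
  have h : Fintype.card {z : Bool × ZMod q // z.1 = false ∧ z.2 ∈ U} = 2 * d := by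
    rw [Fintype.card_of_subtype (({false} : Finset Bool) ×ˢ U), Finset.card_product,
      Finset.card_singleton, hU, one_mul]
    intro x
    rw [Finset.mem_product, Finset.mem_singleton]
  rw [h]
  omega

/-- The transport of the vertices. -/
def CRX_tau {m q d : ℕ} {U : Finset (ZMod q)}
    (Ψ : Option (ZMod (2 * (q - d) - 1)) ≃ {z : Bool × ZMod q // ¬ (z.1 = false ∧ z.2 ∈ U)})
    (Φ : Option (ZMod (2 * q - 1)) ≃ Bool × ZMod q) :
    VE m q d → (Fin (m + 1) × Bool) × ZMod q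
  | Sum.inl x => ((0, (Ψ x).1.1), (Ψ x).1.2)
  | Sum.inr u => ((u.1.succ, (Φ u.2).1), (Φ u.2).2)

section
variable {m q d : ℕ} {U : Finset (ZMod q)}
    (Ψ : Option (ZMod (2 * (q - d) - 1)) ≃ {z : Bool × ZMod q // ¬ (z.1 = false ∧ z.2 ∈ U)})
    (Φ : Option (ZMod (2 * q - 1)) ≃ Bool × ZMod q)

lemma CRX_pe (v : VE m q d) : (CRX_tau Ψ Φ v).1.1 = pe v := by
  cases v with
  | inl x => rfl
  | inr u => rfl

lemma CRX_liv (v : VE m q d) : Liv U (CRX_tau Ψ Φ v) := by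
  intro h
  cases v with
  | inl x =>
    have h1 : (((0 : Fin (m + 1)), (Ψ x).1.1) : Fin (m + 1) × Bool) = (0, false) := h.1
    have h2 : (Ψ x).1.2 ∈ U := h.2
    exact (Ψ x).2 ⟨(Prod.ext_iff.1 h1).2, h2⟩
  | inr u =>
    have h1 : ((u.1.succ, (Φ u.2).1) : Fin (m + 1) × Bool) = (0, false) := h.1
    exact Fin.succ_ne_zero _ (Prod.ext_iff.1 h1).1

lemma CRX_surj (z : (Fin (m + 1) × Bool) × ZMod q) (hz : Liv U z) :
    ∃ v : VE m q d, CRX_tau Ψ Φ v = z := by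
  obtain ⟨⟨i, b⟩, w⟩ := z
  refine Fin.cases (motive := fun i => Liv U ((i, b), w) → ∃ v : VE m q d,
    CRX_tau Ψ Φ v = ((i, b), w)) ?_ ?_ i hz
  · intro hz
    have hw : ¬ ((b, w).1 = false ∧ (b, w).2 ∈ U) := by
      rintro ⟨h1, h2⟩
      apply hz
      refine ⟨?_, h2⟩
      show ((0 : Fin (m + 1)), b) = (0, false)
      have h1' : b = false := h1
      rw [h1']
    refine ⟨Sum.inl (Ψ.symm ⟨(b, w), hw⟩), ?_⟩
    show ((0, (Ψ (Ψ.symm ⟨(b, w), hw⟩)).1.1), (Ψ (Ψ.symm ⟨(b, w), hw⟩)).1.2) = ((0, b), w)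
    rw [Equiv.apply_symm_apply]
  · intro j _
    refine ⟨Sum.inr (j, Φ.symm (b, w)), ?_⟩
    show ((j.succ, (Φ (Φ.symm (b, w))).1), (Φ (Φ.symm (b, w))).2) = ((j.succ, b), w)
    rw [Equiv.apply_symm_apply]

lemma CRX_inj (u v : VE m q d) (h : CRX_tau Ψ Φ u = CRX_tau Ψ Φ v) : u = v := by
  cases u with
  | inl x =>
    cases v with
    | inl y =>
      have h' : (((0 : Fin (m + 1)), (Ψ x).1.1), (Ψ x).1.2) = (((0 : Fin (m + 1)), (Ψ y).1.1), (Ψ y).1.2) := h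
      have h1 := (Prod.ext_iff.1 (Prod.ext_iff.1 h').1).2
      have h2 := (Prod.ext_iff.1 h').2
      have h3 : Ψ x = Ψ y := Subtype.ext (Prod.ext h1 h2)
      rw [Ψ.injective h3]
    | inr y =>
      exfalso
      have h1 : (CRX_tau Ψ Φ (Sum.inl x : VE m q d)).1.1 = (CRX_tau Ψ Φ (Sum.inr y)).1.1 := by rw [h]
      have h2 : (0 : Fin (m + 1)) = y.1.succ := h1
      exact Fin.succ_ne_zero _ h2.symm
  | inr x =>
    cases v with
    | inl y =>
      exfalso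
      have h1 : (CRX_tau Ψ Φ (Sum.inr x : VE m q d)).1.1 = (CRX_tau Ψ Φ (Sum.inl y)).1.1 := by rw [h]
      have h2 : x.1.succ = (0 : Fin (m + 1)) := h1
      exact Fin.succ_ne_zero _ h2
    | inr y =>
      have h' : ((x.1.succ, (Φ x.2).1), (Φ x.2).2) = ((y.1.succ, (Φ y.2).1), (Φ y.2).2) := h
      have h0 := (Prod.ext_iff.1 (Prod.ext_iff.1 h').1).1
      have h1 := (Prod.ext_iff.1 (Prod.ext_iff.1 h').1).2
      have h2 := (Prod.ext_iff.1 h').2
      have h3 : Φ x.2 = Φ y.2 := Prod.ext h1 h2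
      have h4 : x = y := Prod.ext (Fin.succ_injective _ h0) (Φ.injective h3)
      rw [h4]

end

theorem stmt_CRX : Stmt_PSI → Stmt_BLO → Stmt_CRX := by
  intro hPSI hBLO m d hm
  obtain ⟨K, q1, h1⟩ := hPSI d
  obtain ⟨q2, h2⟩ := hBLO m d hm
  refine ⟨K, max (max q1 q2) (d + 1), fun q hq => ?_⟩
  have hq1 : q1 ≤ q := le_trans (le_trans (le_max_left _ _) (le_max_left _ _)) hq
  have hq2 : q2 ≤ q := le_trans (le_trans (le_max_right _ _) (le_max_left _ _)) hq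
  have hqd : d < q := lt_of_lt_of_le (Nat.lt_succ_self d) (le_trans (le_max_right _ _) hq)
  obtain ⟨Φ, Λ, hΛ, hΦ⟩ := h1 q hq1
  obtain ⟨U, χ, hU, hsym, hirr, hcrs, hex, hun, hrep⟩ := h2 q hq2
  have : NeZero q := ⟨by omega⟩
  obtain ⟨Ψ⟩ := CRX_card hqd U hU
  refine ⟨Λ, fun u v => χ (CRX_tau Ψ Φ u) (CRX_tau Ψ Φ v), hΛ, ?_⟩
  refine ⟨fun u v => hsym _ _, fun u => hirr _, ?_, ?_, ?_, ?_⟩
  · intro u v huv
    apply hcrs _ _ (CRX_liv Ψ Φ u) (CRX_liv Ψ Φ v)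
    rw [CRX_pe, CRX_pe]
    exact huv
  · intro u c
    obtain ⟨w, hw, hc⟩ := hex _ c (CRX_liv Ψ Φ u)
    obtain ⟨v, hv⟩ := CRX_surj Ψ Φ w hw
    refine ⟨v, ?_⟩
    show χ (CRX_tau Ψ Φ u) (CRX_tau Ψ Φ v) = some c
    rw [hv]
    exact hc
  · intro u v w c hv hw
    exact CRX_inj Ψ Φ v w (hun _ _ _ c (CRX_liv Ψ Φ u) (CRX_liv Ψ Φ v) (CRX_liv Ψ Φ w) hv hw)
  · intro u v huv hne
    obtain ⟨h1, h2, l, hl, h3⟩ := hrep _ _ (CRX_liv Ψ Φ u) (CRX_liv Ψ Φ v)
      (by rw [CRX_pe, CRX_pe]; exact huv) hne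
    cases u with
    | inl x => exact absurd (CRX_pe Ψ Φ (Sum.inl x : VE m q d)) (fun _ => h2 rfl)
    | inr x =>
      cases v with
      | inl y =>
        exfalso
        apply h2
        have h5 : (CRX_tau Ψ Φ (Sum.inr x : VE m q d)).1.1 = (CRX_tau Ψ Φ (Sum.inl y)).1.1 := by
          rw [h1]
        exact h5
      | inr y =>
        have h6 : ((x.1.succ, (Φ x.2).1) : Fin (m + 1) × Bool) = (y.1.succ, (Φ y.2).1) := h1
        have h7 : x.1 = y.1 := Fin.succ_injective _ (Prod.ext_iff.1 h6).1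
        have h8 : (Φ x.2).1 = (Φ y.2).1 := (Prod.ext_iff.1 h6).2
        refine ⟨x.1, x.2, y.2, rfl, ?_, ?_⟩
        · rw [h7]
        · rcases h3 with h3 | h3
          · have h9 : (Φ y.2).2 = (Φ x.2).2 + ((2 * l + 1 : ℕ) : ZMod q) := h3
            have h10 := hΦ (Φ x.2).1 (Φ x.2).2 l hl
            have e1 : ((Φ x.2).1, (Φ x.2).2) = Φ x.2 := rfl
            have e2 : ((Φ x.2).1, (Φ x.2).2 + ((2 * l + 1 : ℕ) : ZMod q)) = Φ y.2 :=
              Prod.ext h8 h9.symm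
            rw [e1, e2, Equiv.symm_apply_apply, Equiv.symm_apply_apply] at h10
            exact h10
          · have h9 : (Φ x.2).2 = (Φ y.2).2 + ((2 * l + 1 : ℕ) : ZMod q) := h3
            have h10 := hΦ (Φ y.2).1 (Φ y.2).2 l hl
            have e1 : ((Φ y.2).1, (Φ y.2).2) = Φ y.2 := rfl
            have e2 : ((Φ y.2).1, (Φ y.2).2 + ((2 * l + 1 : ℕ) : ZMod q)) = Φ x.2 :=
              Prod.ext h8.symm h9.symm
            rw [e1, e2, Equiv.symm_apply_apply, Equiv.symm_apply_apply] at h10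
            rw [GM1_lbl_symm]
            exact h10

end Pool.Agent.Work.MP_1ce445_ple
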