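import Pool.Agent.Work.MP_1ce445_ple.Interface
import Pool.Agent.Work.MP_1ce445_plt.GRD

/-!
GRE (MP_1ce445_co, plateaus): greedy choice of vertices with disjoint sets of labels which avoid `Λ`.
-/

namespace Pool.Agent.Work.MP_1ce445_ple

open Finset Pool.Agent.Work.MP_1ce445_co_56 Pool.Agent.Work.MP_1ce445_lin
  Pool.Agent.Work.MP_1ce445_fx Pool.Agent.Work.MP_1ce445_stm Pool.Agent.Work.MP_1ce445_plt
  Pool.Agent.Work.MP_1ce445_pln

theorem stmt_GRE (hC : MP_1ce445_fx.Stmt_CNM) : Stmt_GRE := by
  classical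
  intro q m K T Λ j hq hT hΛ
  have : NeZero (2 * q - 1) := ⟨by omega⟩
  have hq1 : 1 ≤ q := by omega
  -- the class
  obtain ⟨C, hCd⟩ : ∃ C : Finset (ZMod (2 * q - 1)), C = univ.filter (fun v => cls (some v) = j) :=
    ⟨_, rfl⟩
  have hCc : 2 * (q / 3) ≤ C.card + 1 := by
    have h1 := hC q hq1 j
    have h2 : (univ.filter (fun v : Option (ZMod (2 * q - 1)) => cls v = j)).card ≤
        (insert none (C.image some)).card := by
      apply Finset.card_le_card
      intro v hv
      have hv' := (Finset.mem_filter.1 hv).2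
      cases v with
      | none => exact Finset.mem_insert_self _ _
      | some x =>
        refine Finset.mem_insert_of_mem (Finset.mem_image.2 ⟨x, ?_, rfl⟩)
        rw [hCd]
        exact Finset.mem_filter.2 ⟨Finset.mem_univ _, hv'⟩
    have h3 := Finset.card_insert_le (none : Option (ZMod (2 * q - 1))) (C.image some)
    have h4 : (C.image (some : ZMod (2 * q - 1) → Option (ZMod (2 * q - 1)))).card ≤ C.card :=
      Finset.card_image_le
    have hj := j.isLt
    have h5 : q / 3 ≤ (q + 2 - j.val) / 3 := Nat.div_le_div_right (by omega)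
    omega
  -- the admissible elements
  obtain ⟨A, hA⟩ : ∃ A : Finset (ZMod (2 * q - 1)),
      A = C.filter (fun v => some v ∉ T ∧ 0 ∉ labs T v ∧ Disjoint (labs T v) Λ) := ⟨_, rfl⟩
  have hfib : ∀ (t : Option (ZMod (2 * q - 1))) (l : ZMod (2 * q - 1)),
      (univ.filter (fun v : ZMod (2 * q - 1) => lbl (some v) t = l)).card ≤ 1 := by
    intro t l
    rw [Finset.card_le_one]
    intro a ha b hb
    exact GRD_inj hq1 t a b ((Finset.mem_filter.1 ha).2.trans (Finset.mem_filter.1 hb).2.symm)
  have hCA : C.card ≤ A.card + (K + 2) * m := by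
    have h1 : C ⊆ A ∪ ((univ.filter (fun v : ZMod (2 * q - 1) => some v ∈ T)) ∪
        (T ×ˢ (insert 0 Λ)).biUnion (fun p =>
          univ.filter (fun v : ZMod (2 * q - 1) => lbl (some v) p.1 = p.2))) := by
      intro v hv
      by_cases h2 : some v ∈ T
      · exact Finset.mem_union_right _ (Finset.mem_union_left _
          (Finset.mem_filter.2 ⟨Finset.mem_univ _, h2⟩))
      · by_cases h3 : ∃ l ∈ labs T v, l ∈ insert 0 Λ
        · obtain ⟨l, hl, hl2⟩ := h3
          obtain ⟨t, ht, ht2⟩ := (GRD_mem T v l).1 hl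
          exact Finset.mem_union_right _ (Finset.mem_union_right _
            (Finset.mem_biUnion.2 ⟨(t, l), Finset.mem_product.2 ⟨ht, hl2⟩,
              Finset.mem_filter.2 ⟨Finset.mem_univ _, ht2⟩⟩))
        · refine Finset.mem_union_left _ ?_
          rw [hA]
          refine Finset.mem_filter.2 ⟨hv, h2, fun h4 => h3 ⟨0, h4, Finset.mem_insert_self _ _⟩, ?_⟩
          rw [Finset.disjoint_left]
          exact fun l hl hl2 => h3 ⟨l, hl, Finset.mem_insert_of_mem hl2⟩
    have h2 := Finset.card_le_card h1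
    have h3 := Finset.card_union_le A ((univ.filter (fun v : ZMod (2 * q - 1) => some v ∈ T)) ∪
        (T ×ˢ (insert 0 Λ)).biUnion (fun p =>
          univ.filter (fun v : ZMod (2 * q - 1) => lbl (some v) p.1 = p.2)))
    have h4 := Finset.card_union_le (univ.filter (fun v : ZMod (2 * q - 1) => some v ∈ T))
        ((T ×ˢ (insert 0 Λ)).biUnion (fun p =>
          univ.filter (fun v : ZMod (2 * q - 1) => lbl (some v) p.1 = p.2)))
    have h5 : (univ.filter (fun v : ZMod (2 * q - 1) => some v ∈ T)).card ≤ T.card := by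
      apply Finset.card_le_card_of_injOn some
      · intro v hv
        exact (Finset.mem_filter.1 (Finset.mem_coe.1 hv)).2
      · intro a _ b _ hab
        exact Option.some.inj hab
    have h6 := Finset.card_biUnion_le_card_mul (T ×ˢ (insert 0 Λ))
      (fun p => univ.filter (fun v : ZMod (2 * q - 1) => lbl (some v) p.1 = p.2)) 1
      (fun p _ => hfib p.1 p.2)
    rw [Finset.card_product] at h6
    have h7 : (insert 0 Λ).card ≤ K + 1 := (Finset.card_insert_le _ _).trans (by omega)
    have h8 : T.card * (insert 0 Λ).card ≤ m * (K + 1) := Nat.mul_le_mul hT h7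
    have h9 : (K + 2) * m = m * (K + 1) + m := by ring
    omega
  -- greedy choice
  obtain ⟨J, hJ, hJ2, hJ3⟩ := GRD_greedy (fun v v' => Disjoint (labs T v) (labs T v')) (m ^ 2 + 1)
    (fun a b h => h.symm) A.card A rfl (by
      intro v _
      refine ⟨insert v ((T ×ˢ T).biUnion (fun p =>
        univ.filter (fun w : ZMod (2 * q - 1) => lbl (some w) p.2 = lbl (some v) p.1))), ?_,
        Finset.mem_insert_self _ _, ?_⟩
      · refine le_trans (Finset.card_insert_le _ _) ?_
        have h1 := Finset.card_biUnion_le_card_mul (T ×ˢ T) (fun p =>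
          univ.filter (fun w : ZMod (2 * q - 1) => lbl (some w) p.2 = lbl (some v) p.1)) 1
          (fun p _ => hfib p.2 _)
        rw [Finset.card_product] at h1
        have h2 : T.card * T.card ≤ m ^ 2 := by
          rw [sq]
          exact Nat.mul_le_mul hT hT
        omega
      · intro w _ hw
        rw [Finset.not_disjoint_iff] at hw
        obtain ⟨l, hl1, hl2⟩ := hw
        obtain ⟨t, ht, ht2⟩ := (GRD_mem T v l).1 hl1
        obtain ⟨t', ht', ht'2⟩ := (GRD_mem T w l).1 hl2
        refine Finset.mem_insert_of_mem (Finset.mem_biUnion.2 ⟨(t, t'),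
          Finset.mem_product.2 ⟨ht, ht'⟩, Finset.mem_filter.2 ⟨Finset.mem_univ _, ?_⟩⟩)
        exact ht'2.trans ht2.symm)
  refine ⟨J, by omega, ?_, hJ3⟩
  intro v hv
  have h1 := hJ hv
  rw [hA, hCd, Finset.mem_filter, Finset.mem_filter] at h1
  exact ⟨h1.1.2, h1.2.1, h1.2.2.1, h1.2.2.2⟩

end Pool.Agent.Work.MP_1ce445_ple
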