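import Pool.Agent.Work.MP_1ce445_ple.Interface
import Pool.Agent.Work.MP_1ce445_plt.LBR

/-!
LBE (MP_1ce445_co, plateaus): good sets of labels which avoid a bounded set `Λ`; copy of `MP_1ce445_plt/LBR.lean`.
-/

namespace Pool.Agent.Work.MP_1ce445_ple

open Finset Pool.Agent.Work.MP_1ce445_co_56 Pool.Agent.Work.MP_1ce445_lin
  Pool.Agent.Work.MP_1ce445_fx Pool.Agent.Work.MP_1ce445_stm Pool.Agent.Work.MP_1ce445_plt
  Pool.Agent.Work.MP_1ce445_pln

theorem LBE_J (c x Z P J k : ℝ) (s : ℕ) (hk : 2 ≤ k) (hc : 1 ≤ c) (hx2 : 2 ≤ x) (hZ1 : 1 ≤ Z) (hZx : Z ^ 2 ≤ x)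
    (hZ2 : 12 * k * c + 28 ≤ Z) (hsZ : (s : ℝ) ≤ c * Z) (hJ : 0 ≤ J)
    (hJs : x / 3 - 4 / 3 ≤ ((s : ℝ) ^ 2 + 1) * J + k * s + 1) (hP : Z ^ 8 / x ≤ P) (hP0 : 0 ≤ P) :
    Z ^ 6 / (8 * c ^ 2) ≤ P * J := by
  have hx0 : 0 < x := by linarith
  have hc0 : 0 < c := by linarith
  have hJ4 : x / 4 ≤ ((s : ℝ) ^ 2 + 1) * J := by
    have h8 : k * (s : ℝ) + 7 / 3 ≤ x / 12 := by
      have h81 : (12 * k * c + 28) * Z ≤ Z * Z := mul_le_mul_of_nonneg_right hZ2 (by linarith)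
      have h82 : Z * Z = Z ^ 2 := by ring
      have h83 : (12 * k * c + 28) * Z = 12 * (k * (c * Z)) + 28 * Z := by ring
      have h84 : k * (s : ℝ) ≤ k * (c * Z) := mul_le_mul_of_nonneg_left hsZ (by linarith)
      linarith
    linarith
  have hs2 : (s : ℝ) ^ 2 + 1 ≤ 2 * c ^ 2 * Z ^ 2 := by
    have h9 : (s : ℝ) ^ 2 ≤ (c * Z) ^ 2 := pow_le_pow_left₀ (by positivity) hsZ 2
    have h10 : 1 ≤ (c * Z) ^ 2 := by
      have h10' : 1 ≤ c * Z := one_le_mul_of_one_le_of_one_le hc hZ1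
      exact one_le_pow₀ h10'
    have h10'' : 2 * c ^ 2 * Z ^ 2 = (c * Z) ^ 2 + (c * Z) ^ 2 := by ring
    rw [h10'']
    linarith
  have hJ5 : x / (8 * c ^ 2 * Z ^ 2) ≤ J := by
    rw [div_le_iff₀ (by positivity)]
    have h11 : ((s : ℝ) ^ 2 + 1) * J ≤ 2 * c ^ 2 * Z ^ 2 * J := mul_le_mul_of_nonneg_right hs2 hJ
    have h11' : J * (8 * c ^ 2 * Z ^ 2) = 4 * (2 * c ^ 2 * Z ^ 2 * J) := by ring
    rw [h11']
    linarith
  have h12 : Z ^ 8 / x * (x / (8 * c ^ 2 * Z ^ 2)) ≤ P * J :=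
    mul_le_mul hP hJ5 (by positivity) hP0
  have h13 : Z ^ 8 / x * (x / (8 * c ^ 2 * Z ^ 2)) = Z ^ 6 / (8 * c ^ 2) := by
    field_simp
  rw [← h13]
  exact h12

/-- the numerical part -/
theorem LBE_num (ε k : ℝ) (hk : 2 ≤ k) (h0 : 0 < ε) (h1 : ε < 1) :
    ∃ X0 : ℝ, ∀ x : ℝ, X0 ≤ x → 2 ≤ x ∧ k ≤ ε * x ∧
    ∀ (s : ℕ) (τ J : ℝ), 0 < τ → τ ≤ 1 - ε → 1 ≤ x ^ (1 - ε) * τ ^ s → 0 ≤ J →
      x / 3 - 4 / 3 ≤ ((s : ℝ) ^ 2 + 1) * J + k * s + 1 →
      3 * (x + 1) ^ s * Real.exp (-((τ / (1 + ε ^ 2 / 4)) ^ s * J)) < ε ^ 2 / 8 := by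
  set a : ℝ := ε / 16 with ha
  set c : ℝ := 16 / ε ^ 2 with hc
  set K : ℝ := 24 / ε ^ 2 with hK
  have ha0 : 0 < a := by positivity
  have he2 : ε ^ 2 ≤ 1 := by nlinarith
  have hc16 : 16 ≤ c := by
    rw [hc, le_div_iff₀ (by positivity)]
    linarith
  have hc1 : 1 ≤ c := by linarith
  have hK0 : 0 < K := by positivity
  have hac : 1 / a ≤ c := by
    rw [ha, hc, one_div_div, div_le_div_iff₀ h0 (by positivity)]
    nlinarith
  obtain ⟨X1, hX1⟩ := Filter.eventually_atTop.1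
    ((tendsto_rpow_atTop ha0).eventually_ge_atTop (1 + (12 * k * c + 28) + 8 * c ^ 2 * (2 * c ^ 2 + K)))
  refine ⟨max X1 2, fun x hx => ?_⟩
  have hx1 : X1 ≤ x := (le_max_left _ _).trans hx
  have hx2 : 2 ≤ x := (le_max_right _ _).trans hx
  have hx0 : 0 < x := by linarith
  have hZ := hX1 x hx1
  set Z : ℝ := x ^ a with hZd
  have hpp : 0 ≤ 8 * c ^ 2 * (2 * c ^ 2 + K) := by positivity
  have hkc : 0 ≤ 12 * k * c := by positivity
  have hZ1 : 1 ≤ Z := by linarith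
  have hZ2 : 12 * k * c + 28 ≤ Z := by linarith
  have hZ3 : 8 * c ^ 2 * (2 * c ^ 2 + K) ≤ Z := by linarith
  have hZ16 : Z ^ 16 = x ^ ε := by
    rw [hZd, ← Real.rpow_natCast, ← Real.rpow_mul hx0.le, ha]
    congr 1
    push_cast
    ring
  have hZ8 : Z ^ 8 = x ^ (ε / 2) := by
    rw [hZd, ← Real.rpow_natCast, ← Real.rpow_mul hx0.le, ha]
    congr 1
    push_cast
    ring
  have hxε : x ^ ε ≤ x := by
    conv_rhs => rw [← Real.rpow_one x]
    exact Real.rpow_le_rpow_of_exponent_le (by linarith) h1.le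
  have hZx : Z ^ 2 ≤ x := by
    have : Z ^ 2 ≤ Z ^ 16 := pow_le_pow_right₀ hZ1 (by norm_num)
    linarith
  have hZx1 : Z ≤ x := by
    have : Z ^ 1 ≤ Z ^ 2 := pow_le_pow_right₀ hZ1 (by norm_num)
    linarith
  have hlog : Real.log x ≤ Z * (1 / a) := by
    have := Real.log_le_rpow_div hx0.le ha0
    rw [← hZd] at this
    rw [mul_one_div]
    exact this
  refine ⟨hx2, ?_, ?_⟩
  · have h3 : 12 * k * c ≤ x := by linarith
    have h4 : ε * c = 16 / ε := by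
      rw [hc]
      field_simp
    have h5 : 16 ≤ 16 / ε := by
      rw [le_div_iff₀ h0]
      linarith
    have h6 : ε * (12 * k * c) ≤ ε * x := mul_le_mul_of_nonneg_left h3 h0.le
    have h7 : ε * (12 * k * c) = 12 * k * (ε * c) := by ring
    have h8 : 12 * k * 16 ≤ 12 * k * (ε * c) :=
      mul_le_mul_of_nonneg_left (by linarith) (by linarith)
    linarith
  · intro s τ J hτ0 hτ1 hs hJ hJs
    have hlτ : Real.log τ ≤ -ε := by
      have := Real.log_le_sub_one_of_pos hτ0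
      linarith
    have hlog0 : 0 < Real.log x := Real.log_pos (by linarith)
    have hsl : (s : ℝ) * ε ≤ Real.log x := by
      have h2 : 0 ≤ Real.log (x ^ (1 - ε) * τ ^ s) := Real.log_nonneg hs
      rw [Real.log_mul (by positivity) (by positivity), Real.log_rpow hx0, Real.log_pow] at h2
      have h3 : (s : ℝ) * Real.log τ ≤ s * (-ε) := mul_le_mul_of_nonneg_left hlτ (by positivity)
      have h4 : (1 - ε) * Real.log x ≤ 1 * Real.log x := mul_le_mul_of_nonneg_right (by linarith) hlog0.le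
      linarith
    have hsZ : (s : ℝ) ≤ c * Z := by
      have hsε : (s : ℝ) ≤ Real.log x / ε := by
        rw [le_div_iff₀ h0]
        exact hsl
      refine hsε.trans ?_
      rw [div_le_iff₀ h0]
      have h4 : c * Z * ε = Z * (1 / a) := by
        rw [hc, ha]
        field_simp
      rw [h4]
      exact hlog
    have hps := LBR_pow ε x τ s h0 h1 (by linarith) hτ0 hsl hs
    rw [← hZ8] at hps
    have hδ0 : 0 < 1 + ε ^ 2 / 4 := by positivity
    have hexp := LBE_J c x Z _ J k s hk hc1 hx2 hZ1 hZx hZ2 hsZ hJ hJs hps (by positivity)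
    have hpx := LBR_px c x Z s hc1 hx2 hZ1 hsZ (hlog.trans (mul_le_mul_of_nonneg_left hac (by positivity)))
    have hfin := LBR_fin c K Z hc1 hK0 hZ1 hZ3
    have hK3 : 3 * Real.exp (-K) < ε ^ 2 / 8 := by
      have h23 : K < Real.exp K := by
        have := Real.add_one_le_exp K
        linarith
      rw [Real.exp_neg]
      have h24 : (Real.exp K)⁻¹ < K⁻¹ := by
        rw [inv_lt_inv₀ (Real.exp_pos _) hK0]
        exact h23
      have h25 : 3 * K⁻¹ = ε ^ 2 / 8 := by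
        rw [hK]
        field_simp
        norm_num
      linarith
    calc 3 * (x + 1) ^ s * Real.exp (-((τ / (1 + ε ^ 2 / 4)) ^ s * J))
        ≤ 3 * Real.exp (2 * c ^ 2 * Z ^ 2) * Real.exp (-(Z ^ 6 / (8 * c ^ 2))) := by
          apply mul_le_mul _ _ (Real.exp_pos _).le (by positivity)
          · exact mul_le_mul_of_nonneg_left hpx (by norm_num)
          · apply Real.exp_le_exp.2
            linarith
      _ = 3 * Real.exp (2 * c ^ 2 * Z ^ 2 - Z ^ 6 / (8 * c ^ 2)) := by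
          rw [mul_assoc, ← Real.exp_add]
          congr 2
      _ ≤ 3 * Real.exp (-K) := by
          apply mul_le_mul_of_nonneg_left _ (by norm_num)
          exact Real.exp_le_exp.2 hfin
      _ < ε ^ 2 / 8 := hK3

theorem stmt_LBE (hRW1 : MP_1ce445_plt.Stmt_RW1) (hRW2 : MP_1ce445_plt.Stmt_RW2) (hGRE : Stmt_GRE) :
    Stmt_LBE := by
  classical
  intro K ε h0 h1
  obtain ⟨X0, hX0⟩ := LBE_num ε ((K : ℝ) + 2) (by
    have : (0 : ℝ) ≤ K := by positivity
    linarith) h0 h1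
  refine ⟨max 3 ⌈X0⌉₊, fun q m r hq hr hm1 hx Λ hΛ => ?_⟩
  have hq3 : 3 ≤ q := (le_max_left _ _).trans hq
  have hq2 : 2 ≤ q := by omega
  have hqX : X0 ≤ 2 * (q : ℝ) := by
    have h2 : X0 ≤ (q : ℝ) := (Nat.le_ceil X0).trans (by exact_mod_cast (le_max_right _ _).trans hq)
    have h3 : (0 : ℝ) ≤ q := by positivity
    linarith
  obtain ⟨hx2, hεx, hnum⟩ := hX0 (2 * q) hqX
  have : NeZero (2 * q - 1) := ⟨by omega⟩
  have hq0 : (0 : ℝ) < 2 * q := by linarith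
  have ht : m ≤ ((univ : Finset (ZMod (2 * q - 1))) \ insert 0 Λ).card := by
    rw [card_sdiff_of_subset (subset_univ _), card_univ, ZMod.card]
    have h2 : (m : ℝ) + ((K : ℝ) + 2) ≤ 2 * q := by
      have h3 : (1 - ε) * (2 * (q : ℝ)) = 2 * q - ε * (2 * q) := by ring
      linarith
    have h4 : m + (K + 2) ≤ 2 * q := by exact_mod_cast h2
    have h5 : (insert 0 Λ).card ≤ K + 1 := (card_insert_le _ _).trans (by omega)
    omega
  have hdis : ∀ L : Finset (ZMod (2 * q - 1)), L ⊆ univ \ insert 0 Λ → Disjoint L Λ ∧ 0 ∉ L := by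
    intro L hL
    refine ⟨?_, ?_⟩
    · rw [disjoint_left]
      intro y hy hy'
      exact (mem_sdiff.1 (hL hy)).2 (mem_insert_of_mem hy')
    · intro hy
      exact (mem_sdiff.1 (hL hy)).2 (mem_insert_self _ _)
  by_cases hr1 : r = 1
  · subst hr1
    obtain ⟨L, hL2, hL3⟩ := exists_subset_card_eq ht
    refine ⟨L, hL3, (hdis L hL2).1, (hdis L hL2).2, ?_⟩
    intro T j x hT
    have hT0 : T = ∅ := card_eq_zero.1 (by omega)
    obtain ⟨J, hJ1, hJ2, -⟩ := hGRE q 0 K T Λ j hq2 (by omega) hΛ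
    rw [mul_zero] at hJ1
    have hJ0 : 0 < J.card := by omega
    obtain ⟨v, hv⟩ := card_pos.1 hJ0
    obtain ⟨hv1, hv2, -⟩ := hJ2 v hv
    refine ⟨some v, hv1, Subsingleton.elim _ _, hv2, fun t ht' => ?_⟩
    rw [hT0] at ht'
    exact absurd ht' (notMem_empty t)
  set s : ℕ := r - 1 with hs
  have hs1 : s ≠ 0 := by omega
  have hm0 : 0 < m := by
    rcases Nat.eq_zero_or_pos m with hm | hm
    · rw [hm, Nat.cast_zero, zero_div, zero_pow hs1, mul_zero] at hx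
      exact absurd hx (by norm_num)
    · exact hm
  have hm0' : (0 : ℝ) < m := by exact_mod_cast hm0
  set τ : ℝ := (m : ℝ) / (2 * q) with hτd
  have hτ1 : τ ≤ 1 - ε := by
    rw [hτd, div_le_iff₀ hq0]
    exact hm1
  have hτ0 : 0 < τ := by positivity
  set δ : ℝ := ε ^ 2 / 4 with hδ
  have hδ0 : 0 < δ := by positivity
  have hδ1 : δ < 1 := by
    rw [hδ]
    nlinarith
  set p : ℝ := τ / (1 + δ) with hp
  have hp0 : 0 ≤ p := by positivity
  have hp1 : p ≤ 1 := by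
    rw [hp, div_le_one (by positivity)]
    linarith
  obtain ⟨w, hw0, hw1, hwS⟩ := hRW1 (ZMod (2 * q - 1)) p hp0 hp1
  have hG : ∀ c : Finset (Option (ZMod (2 * q - 1))) × Fin 3, ∃ J : Finset (ZMod (2 * q - 1)),
      c.1.card ≤ s → 2 * (q / 3) ≤ (s ^ 2 + 1) * J.card + (K + 2) * s + 1 ∧
      (∀ v ∈ J, cls (some v) = c.2 ∧ some v ∉ c.1 ∧ 0 ∉ labs c.1 v ∧ Disjoint (labs c.1 v) Λ) ∧
      ∀ v ∈ J, ∀ v' ∈ J, v ≠ v' → Disjoint (labs c.1 v) (labs c.1 v') := by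
    intro c
    by_cases hc : c.1.card ≤ s
    · obtain ⟨J, hJ⟩ := hGRE q s K c.1 Λ c.2 hq2 hc hΛ
      exact ⟨J, fun _ => hJ⟩
    · exact ⟨∅, fun h => absurd h hc⟩
  choose J hJ using hG
  set C : Finset (Finset (Option (ZMod (2 * q - 1))) × Fin 3) :=
    ((univ : Finset (Finset (Option (ZMod (2 * q - 1))))).filter (fun T => T.card ≤ s)) ×ˢ univ with hC
  have hmemC : ∀ c, c ∈ C ↔ c.1.card ≤ s := by
    intro c
    rw [hC, mem_product, mem_filter]
    exact ⟨fun h => h.1.2, fun h => ⟨⟨mem_univ _, h⟩, mem_univ _⟩⟩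
  have hcardO : Fintype.card (Option (ZMod (2 * q - 1))) = 2 * q := by
    rw [Fintype.card_option, ZMod.card]
    omega
  have hCc : (C.card : ℝ) ≤ 3 * (2 * (q : ℝ) + 1) ^ s := by
    have h2 := LBR_count (β := Option (ZMod (2 * q - 1))) s
    rw [hcardO] at h2
    have h3 : C.card ≤ (2 * q + 1) ^ s * 3 := by
      rw [hC, card_product, card_univ, Fintype.card_fin]
      exact Nat.mul_le_mul_right _ h2
    have h4 : (C.card : ℝ) ≤ (((2 * q + 1) ^ s * 3 : ℕ) : ℝ) := by exact_mod_cast h3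
    refine h4.trans (le_of_eq ?_)
    push_cast
    ring
  set D : ℝ := 3 * (2 * (q : ℝ) + 1) ^ s with hD
  have hD0 : 0 < D := by positivity
  have hlabs : ∀ (T : Finset (Option (ZMod (2 * q - 1)))) (v : ZMod (2 * q - 1)), (labs T v).card ≤ T.card := by
    intro T v
    unfold labs
    exact card_image_le
  have hB : ∀ c ∈ C, ∑ L, (if ∀ v ∈ J c, ¬ labs c.1 v ⊆ L then w L else 0) ≤ ε ^ 2 / 8 / D := by
    intro c hc
    have hcs := (hmemC c).1 hc
    obtain ⟨hj1, hj2, hj3⟩ := hJ c hcs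
    have h2 := hRW2 (ZMod (2 * q - 1)) (ZMod (2 * q - 1)) p w hwS (J c) (fun v => labs c.1 v) hj3
    have h3 := LBR_prod p hp0 hp1 s (J c) (fun v => (labs c.1 v).card)
      (fun v _ => (hlabs c.1 v).trans hcs)
    have h4 := hnum s τ (J c).card hτ0 hτ1 hx (by positivity) (by
      have h5 : 2 * q ≤ 3 * ((s ^ 2 + 1) * (J c).card + (K + 2) * s + 1) + 4 := by omega
      have h6 : (2 * q : ℝ) ≤ 3 * (((s : ℝ) ^ 2 + 1) * (J c).card + ((K : ℝ) + 2) * s + 1) + 4 := by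
        exact_mod_cast h5
      linarith)
    rw [le_div_iff₀ hD0]
    have h7 : ∑ L, (if ∀ v ∈ J c, ¬ labs c.1 v ⊆ L then w L else 0) ≤ Real.exp (-(p ^ s * (J c).card)) := by
      refine le_trans (le_of_eq ?_) h3
      rw [← h2]
      refine sum_congr rfl fun L _ => ?_
      by_cases hh : ∀ v ∈ J c, ¬ labs c.1 v ⊆ L
      · rw [if_pos hh, if_pos hh]
      · rw [if_neg hh, if_neg hh]
    have h8 : (∑ L, (if ∀ v ∈ J c, ¬ labs c.1 v ⊆ L then w L else 0)) * D ≤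
        Real.exp (-(p ^ s * (J c).card)) * D := mul_le_mul_of_nonneg_right h7 hD0.le
    have h9 : Real.exp (-(p ^ s * (J c).card)) * D < ε ^ 2 / 8 := by
      rw [mul_comm]
      exact h4
    linarith
  have hsum : Fintype.card (ZMod (2 * q - 1)) * p / m + C.card * (ε ^ 2 / 8 / D) < 1 := by
    have h2 : C.card * (ε ^ 2 / 8 / D) ≤ δ / 2 := by
      have h3 : C.card * (ε ^ 2 / 8 / D) ≤ D * (ε ^ 2 / 8 / D) :=
        mul_le_mul_of_nonneg_right hCc (by positivity)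
      have h4 : D * (ε ^ 2 / 8 / D) = δ / 2 := by
        rw [mul_div_cancel₀ _ hD0.ne', hδ]
        ring
      linarith
    have h5 : (Fintype.card (ZMod (2 * q - 1)) : ℝ) * p / m ≤ 1 / (1 + δ) := by
      rw [ZMod.card, div_le_div_iff₀ hm0' (by positivity), hp, one_mul]
      have h6 : ((2 * q - 1 : ℕ) : ℝ) ≤ 2 * q := by
        have : 2 * q - 1 ≤ 2 * q := by omega
        exact_mod_cast this
      have h7 : ((2 * q - 1 : ℕ) : ℝ) * (τ / (1 + δ)) * (1 + δ) = ((2 * q - 1 : ℕ) : ℝ) * τ := by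
        field_simp
      rw [h7]
      have h8 : ((2 * q - 1 : ℕ) : ℝ) * τ ≤ 2 * q * τ := mul_le_mul_of_nonneg_right h6 hτ0.le
      have h9 : 2 * (q : ℝ) * τ = m := by
        rw [hτd]
        field_simp
      linarith
    have h10 : 1 / (1 + δ) + δ / 2 < 1 := by
      have h11 : 1 / (1 + δ) = 1 - δ / (1 + δ) := by
        field_simp
        ring
      have h12 : δ / 2 < δ / (1 + δ) := by
        rw [div_lt_div_iff₀ (by norm_num) (by positivity)]
        nlinarith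
      linarith
    linarith
  obtain ⟨L0, hL0, hL0E⟩ := LBR_union w hw0 hw1 p hwS m hm0 C
    (fun c L => ∀ v ∈ J c, ¬ labs c.1 v ⊆ L) _ hB hsum
  obtain ⟨L, hL1, hL2, hL3⟩ := exists_subsuperset_card_eq
    (sdiff_subset_sdiff (subset_univ L0) (Subset.refl (insert 0 Λ)))
    ((card_le_card sdiff_subset).trans hL0) ht
  refine ⟨L, hL3, (hdis L hL2).1, (hdis L hL2).2, ?_⟩
  intro T j x hT
  have hc : ((T, j) : Finset (Option (ZMod (2 * q - 1))) × Fin 3) ∈ C := (hmemC _).2 hT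
  have hE := hL0E _ hc
  push Not at hE
  obtain ⟨v, hv, hvL⟩ := hE
  obtain ⟨-, hj2, -⟩ := hJ (T, j) hT
  obtain ⟨hv1, hv2, hv3, hv4⟩ := hj2 v hv
  refine ⟨some v, hv1, Subsingleton.elim _ _, hv2, fun t ht => hL1 ?_⟩
  have hmem : lbl (some v) t ∈ labs T v := by
    unfold labs
    exact mem_image_of_mem _ ht
  rw [mem_sdiff, mem_insert, not_or]
  refine ⟨hvL hmem, fun hh => hv3 ?_, fun hh => (disjoint_left.1 hv4) hmem hh⟩
  rw [← hh]
  exact hmem

end Pool.Agent.Work.MP_1ce445_ple
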