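import Pool.Agent.Work.MP_1ce445_ple.Interface
import Pool.Agent.Work.MP_1ce445_fx.GS1
import Pool.Agent.Work.MP_1ce445_fx.SLO

/-!
Block LEV of `MP_1ce445_ple` (helper57): the graphs, all even `n`.
-/

namespace Pool.Agent.Work.MP_1ce445_ple

open Finset Pool.Agent.Work.MP_1ce445_co_56 Pool.Agent.Work.MP_1ce445_lin
  Pool.Agent.Work.MP_1ce445_fx Pool.Agent.Work.MP_1ce445_stm Pool.Agent.Work.MP_1ce445_plt
  Pool.Agent.Work.MP_1ce445_pln

/-- the label functions -/
theorem LEV_fun {α : Type} [Fintype α] [DecidableEq α] (t M : ℕ) (L Λ : Finset α)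
    (hL : L.card = t) (hd : Disjoint L Λ) (h : t + Λ.card + M ≤ Fintype.card α) :
    ∃ f : α → Option (Fin t ⊕ Fin M), (∀ a ∈ L, ∃ l, f a = some (Sum.inl l)) ∧
      (∀ b, ∃ a, f a = some b) ∧ (∀ a a' b, f a = some b → f a' = some b → a = a') ∧
      ∀ a, f a ≠ none → a ∉ Λ := by
  classical
  obtain ⟨s, hs, hsL⟩ := SLO_inj M (L ∪ Λ) (by
    have := card_union_le L Λ
    omega)
  let e : Fin t ≃ L := (Fintype.equivFinOfCardEq (by rw [Fintype.card_coe, hL])).symm
  let g : Fin t ⊕ Fin M → α := Sum.elim (fun l => (e l).1) s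
  have hg : Function.Injective g := by
    intro a b hab
    cases a with
    | inl a =>
      cases b with
      | inl b => exact congrArg Sum.inl (e.injective (Subtype.ext hab))
      | inr b =>
        exfalso
        have h1 : (e a).1 = s b := hab
        exact hsL b (mem_union_left _ (h1 ▸ (e a).2))
    | inr a =>
      cases b with
      | inl b =>
        exfalso
        have h1 : s a = (e b).1 := hab
        exact hsL a (mem_union_left _ (h1 ▸ (e b).2))
      | inr b => exact congrArg Sum.inr (hs hab)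
  have hgΛ : ∀ b, g b ∉ Λ := by
    intro b
    cases b with
    | inl b => exact Finset.disjoint_left.1 hd (e b).2
    | inr b => exact fun h1 => hsL b (mem_union_right _ h1)
  let f : α → Option (Fin t ⊕ Fin M) := fun a => if h : ∃ b, g b = a then some h.choose else none
  have hf : ∀ a b, f a = some b ↔ g b = a := by
    intro a b
    by_cases h1 : ∃ b, g b = a
    · have h2 : f a = some h1.choose := dif_pos h1
      rw [h2]
      constructor
      · intro h3
        rw [← Option.some.inj h3]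
        exact h1.choose_spec
      · intro h3
        rw [hg (h1.choose_spec.trans h3.symm)]
    · have h2 : f a = none := dif_neg h1
      rw [h2]
      exact ⟨fun h3 => by simp at h3, fun h3 => absurd ⟨b, h3⟩ h1⟩
  refine ⟨f, fun a ha => ?_, fun b => ⟨g b, (hf _ _).2 rfl⟩, fun a a' b h1 h2 => ?_,
    fun a ha hΛ => ?_⟩
  · refine ⟨e.symm ⟨a, ha⟩, (hf _ _).2 ?_⟩
    change (e (e.symm ⟨a, ha⟩)).1 = a
    rw [e.apply_symm_apply]
  · rw [← (hf _ _).1 h1, ← (hf _ _).1 h2]
  · obtain ⟨b, hb⟩ := Option.ne_none_iff_exists'.1 ha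
    have := (hf _ _).1 hb
    exact hgΛ b (this ▸ hΛ)

section ins

variable {m q d t : ℕ} (f₀ : ZMod (2 * (q - d) - 1) → Option (Fin t ⊕ Fin (m + 1)))
  (f₁ : ZMod (2 * q - 1) → Option (Fin t ⊕ Fin (m + 1)))

/-- the labels inside the parts -/
noncomputable def LEV_ins : VE m q d → VE m q d → Option (Fin t ⊕ Fin (m + 1))
  | Sum.inl x, Sum.inl y => if x = y then none else f₀ (lbl x y)
  | Sum.inr u, Sum.inr v => if u.1 = v.1 ∧ u.2 ≠ v.2 then f₁ (lbl u.2 v.2) else none
  | _, _ => none

theorem LEV_stru (hq : 1 ≤ q - d) {r : ℕ} {Λ : Finset (ZMod (2 * q - 1))}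
    {χ : VE m q d → VE m q d → Option (Fin (2 * m * q))} (hχ : Crx m q d Λ χ)
    {L₀ : Finset (ZMod (2 * (q - d) - 1))} {L₁ : Finset (ZMod (2 * q - 1))}
    (hL₀ : Good r (q - d) 1 one_pos L₀) (hL₁ : Good r q 1 one_pos L₁)
    (a1 : ∀ a ∈ L₀, ∃ l, f₀ a = some (Sum.inl l)) (a2 : ∀ b, ∃ a, f₀ a = some b)
    (a3 : ∀ a a' b, f₀ a = some b → f₀ a' = some b → a = a')
    (b1 : ∀ a ∈ L₁, ∃ l, f₁ a = some (Sum.inl l)) (b2 : ∀ b, ∃ a, f₁ a = some b)
    (b3 : ∀ a a' b, f₁ a = some b → f₁ a' = some b → a = a')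
    (b4 : ∀ a, f₁ a ≠ none → a ∉ Λ) :
    Stru (m + 1) (2 * m * q) t r pe χ (LEV_ins f₀ f₁) := by
  classical
  have hq1 : 1 ≤ q := by omega
  refine ⟨hχ.sym, hχ.irr, hχ.crs, hχ.ex, hχ.un, ?_, ?_, ?_, ?_, ?_, ?_⟩
  · intro u v
    cases u with
    | inl x =>
      cases v with
      | inl y =>
        change (if x = y then none else f₀ (lbl x y)) = (if y = x then none else f₀ (lbl y x))
        rw [GM1_lbl_symm x y]
        by_cases h : x = y
        · rw [if_pos h, if_pos h.symm]
        · rw [if_neg h, if_neg (Ne.symm h)]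
      | inr y => rfl
    | inr x =>
      cases v with
      | inl y => rfl
      | inr y =>
        change (if x.1 = y.1 ∧ x.2 ≠ y.2 then f₁ (lbl x.2 y.2) else none) =
          (if y.1 = x.1 ∧ y.2 ≠ x.2 then f₁ (lbl y.2 x.2) else none)
        rw [GM1_lbl_symm x.2 y.2]
        by_cases h : x.1 = y.1 ∧ x.2 ≠ y.2
        · rw [if_pos h, if_pos ⟨h.1.symm, Ne.symm h.2⟩]
        · rw [if_neg h, if_neg fun h2 => h ⟨h2.1.symm, Ne.symm h2.2⟩]
  · intro u
    cases u with
    | inl x =>
      change (if x = x then none else f₀ (lbl x x)) = none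
      rw [if_pos rfl]
    | inr x =>
      change (if x.1 = x.1 ∧ x.2 ≠ x.2 then f₁ (lbl x.2 x.2) else none) = none
      rw [if_neg fun h => h.2 rfl]
  · intro u v huv
    cases u with
    | inl x =>
      cases v with
      | inl y =>
        refine ⟨rfl, ?_⟩
        by_contra hc
        obtain ⟨i, x', y', h1, _⟩ := hχ.rep (Sum.inl x) (Sum.inl y) rfl hc
        cases h1
      | inr y => exact absurd rfl huv
    | inr x =>
      cases v with
      | inl y => exact absurd rfl huv
      | inr y =>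
        change (if x.1 = y.1 ∧ x.2 ≠ y.2 then f₁ (lbl x.2 y.2) else none) ≠ none at huv
        by_cases h : x.1 = y.1 ∧ x.2 ≠ y.2
        · rw [if_pos h] at huv
          have hp : (pe (Sum.inr x : VE m q d)) = pe (Sum.inr y : VE m q d) := by
            change x.1.succ = y.1.succ
            rw [h.1]
          refine ⟨hp, ?_⟩
          by_contra hc
          obtain ⟨i, x', y', h1, h2, h3⟩ := hχ.rep _ _ hp hc
          have e1 := Sum.inr.inj h1
          have e2 := Sum.inr.inj h2
          apply b4 _ huv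
          rw [e1, e2]
          exact h3
        · rw [if_neg h] at huv
          exact absurd rfl huv
  · intro u b
    cases u with
    | inl x =>
      obtain ⟨a, ha⟩ := a2 b
      obtain ⟨y, hy, hy2⟩ := GS1_ex hq a x
      refine ⟨Sum.inl y, ?_⟩
      change (if x = y then none else f₀ (lbl x y)) = some b
      rw [if_neg hy, hy2, ha]
    | inr x =>
      obtain ⟨a, ha⟩ := b2 b
      obtain ⟨y, hy, hy2⟩ := GS1_ex hq1 a x.2
      refine ⟨Sum.inr (x.1, y), ?_⟩
      change (if x.1 = x.1 ∧ x.2 ≠ y then f₁ (lbl x.2 y) else none) = some b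
      rw [if_pos ⟨rfl, hy⟩, hy2, ha]
  · intro u v w b h1 h2
    cases u with
    | inl x =>
      cases v with
      | inl y =>
        cases w with
        | inl z =>
          change (if x = y then none else f₀ (lbl x y)) = some b at h1
          change (if x = z then none else f₀ (lbl x z)) = some b at h2
          by_cases e1 : x = y
          · rw [if_pos e1] at h1
            cases h1
          · by_cases e2 : x = z
            · rw [if_pos e2] at h2
              cases h2
            · rw [if_neg e1] at h1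
              rw [if_neg e2] at h2
              rw [GS1_un hq e1 e2 (a3 _ _ _ h1 h2)]
        | inr z => cases (h2 : none = some b)
      | inr y => cases (h1 : none = some b)
    | inr x =>
      cases v with
      | inl y => cases (h1 : none = some b)
      | inr y =>
        cases w with
        | inl z => cases (h2 : none = some b)
        | inr z =>
          change (if x.1 = y.1 ∧ x.2 ≠ y.2 then f₁ (lbl x.2 y.2) else none) = some b at h1
          change (if x.1 = z.1 ∧ x.2 ≠ z.2 then f₁ (lbl x.2 z.2) else none) = some b at h2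
          by_cases e1 : x.1 = y.1 ∧ x.2 ≠ y.2
          · by_cases e2 : x.1 = z.1 ∧ x.2 ≠ z.2
            · rw [if_pos e1] at h1
              rw [if_pos e2] at h2
              have e3 := GS1_un hq1 e1.2 e2.2 (b3 _ _ _ h1 h2)
              have e4 : y = z := Prod.ext (e1.1.symm.trans e2.1) e3
              rw [e4]
            · rw [if_neg e2] at h2
              cases h2
          · rw [if_neg e1] at h1
            cases h1
  · intro j T hT hc
    refine Fin.cases ?_ (fun i => ?_) j (motive := fun j => (∀ v ∈ T, pe v = j) →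
      ∃ x, pe x = j ∧ x ∉ T ∧ ∀ v ∈ T, ∃ l, LEV_ins f₀ f₁ x v = some (Sum.inl l)) hT
    · intro hT
      let T' : Finset (Option (ZMod (2 * (q - d) - 1))) :=
        T.image (fun v => Sum.elim id (fun _ => none) v)
      obtain ⟨v, -, -, hv, hv2⟩ := hL₀.2 T' 0 0 (card_image_le.trans hc)
      refine ⟨Sum.inl v, rfl, fun h => hv ?_, fun w hw => ?_⟩
      · exact mem_image.2 ⟨_, h, rfl⟩
      · cases w with
        | inl y =>
          have hy : y ∈ T' := mem_image.2 ⟨_, hw, rfl⟩
          obtain ⟨l, hl⟩ := a1 _ (hv2 y hy)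
          refine ⟨l, ?_⟩
          change (if v = y then none else f₀ (lbl v y)) = _
          rw [if_neg (fun e : v = y => hv (e ▸ hy)), hl]
        | inr y =>
          have := hT _ hw
          exact absurd this (Fin.succ_ne_zero _)
    · intro hT
      let T' : Finset (Option (ZMod (2 * q - 1))) :=
        T.image (fun v => Sum.elim (fun _ => none) (fun u : Fin m × Option (ZMod (2 * q - 1)) => u.2) v)
      obtain ⟨v, -, -, hv, hv2⟩ := hL₁.2 T' 0 0 (card_image_le.trans hc)
      refine ⟨Sum.inr (i, v), rfl, fun h => hv ?_, fun w hw => ?_⟩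
      · exact mem_image.2 ⟨_, h, rfl⟩
      · cases w with
        | inl y =>
          have := hT _ hw
          exact absurd this.symm (Fin.succ_ne_zero _)
        | inr y =>
          have hy : y.2 ∈ T' := mem_image.2 ⟨_, hw, rfl⟩
          obtain ⟨l, hl⟩ := b1 _ (hv2 y.2 hy)
          refine ⟨l, ?_⟩
          have hi : i = y.1 := by
            have h1 : y.1.succ = i.succ := hT _ hw
            exact (Fin.succ_injective _ h1).symm
          change (if i = y.1 ∧ v ≠ y.2 then f₁ (lbl v y.2) else none) = _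
          rw [if_pos ⟨hi, fun e : v = y.2 => hv (e ▸ hy)⟩, hl]

end ins

theorem LEV_num {q d r t : ℕ} {ε : ℝ} (hε : 0 < ε) (hε1 : ε < 1) (h1 : (2 : ℝ) ^ (2 / ε) ≤ q)
    (h2 : 2 * (d : ℝ) ≤ ε * q)
    (ht : (t : ℝ) ≤ (1 - ε) * (2 * q))
    (h : 1 ≤ (2 * (q : ℝ)) ^ (1 - ε) * ((t : ℝ) / (2 * q)) ^ (r - 1)) :
    (t : ℝ) ≤ (1 - ε / 2) * (2 * ((q : ℝ) - d)) ∧
      1 ≤ (2 * ((q : ℝ) - d)) ^ (1 - ε / 2) * ((t : ℝ) / (2 * ((q : ℝ) - d))) ^ (r - 1) := by
  have hq0 : (1 : ℝ) ≤ q := by
    refine le_trans ?_ h1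
    exact Real.one_le_rpow (by norm_num) (by positivity)
  have hd0 : (0 : ℝ) ≤ d := Nat.cast_nonneg _
  have hqd : (q : ℝ) ≤ 2 * ((q : ℝ) - d) := by nlinarith
  refine ⟨by nlinarith, ?_⟩
  refine h.trans (mul_le_mul ?_ ?_ (by positivity) (Real.rpow_nonneg (by linarith) _))
  · have e1 : (2 : ℝ) ^ (1 - ε) ≤ (q : ℝ) ^ (ε / 2) := by
      have e2 : ((2 : ℝ) ^ (2 / ε)) ^ (ε / 2) ≤ (q : ℝ) ^ (ε / 2) :=
        Real.rpow_le_rpow (by positivity) h1 (by positivity)
      rw [← Real.rpow_mul (by norm_num)] at e2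
      have e3 : 2 / ε * (ε / 2) = 1 := by field_simp
      rw [e3, Real.rpow_one] at e2
      refine le_trans ?_ e2
      calc (2 : ℝ) ^ (1 - ε) ≤ 2 ^ (1 : ℝ) :=
            Real.rpow_le_rpow_of_exponent_le (by norm_num) (by linarith)
        _ = 2 := Real.rpow_one _
    calc (2 * (q : ℝ)) ^ (1 - ε) = 2 ^ (1 - ε) * (q : ℝ) ^ (1 - ε) :=
          Real.mul_rpow (by norm_num) (by linarith)
      _ ≤ (q : ℝ) ^ (ε / 2) * (q : ℝ) ^ (1 - ε) :=
          mul_le_mul_of_nonneg_right e1 (by positivity)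
      _ = (q : ℝ) ^ (1 - ε / 2) := by
          rw [← Real.rpow_add (by linarith)]
          congr 1
          ring
      _ ≤ _ := Real.rpow_le_rpow (by linarith) hqd (by linarith)
  · apply pow_le_pow_left₀ (by positivity)
    apply div_le_div_of_nonneg_left (Nat.cast_nonneg _) (by linarith) (by linarith)

theorem LEV_card {m q d : ℕ} (hq : 1 ≤ q - d) (hq1 : 1 ≤ q) :
    Nat.card (VE m q d) = 2 * (q - d) + m * (2 * q) := by
  have : NeZero (2 * q - 1) := ⟨by omega⟩
  have : NeZero (2 * (q - d) - 1) := ⟨by omega⟩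
  rw [Nat.card_eq_fintype_card, Fintype.card_sum, Fintype.card_prod, Fintype.card_fin,
    Fintype.card_option, Fintype.card_option, ZMod.card, ZMod.card]
  have e1 : 2 * q - 1 + 1 = 2 * q := by omega
  have e2 : 2 * (q - d) - 1 + 1 = 2 * (q - d) := by omega
  rw [e1, e2]

theorem stmt_LEV (hCRX : Stmt_CRX) (hABS : Stmt_ABS) (hLBE : Stmt_LBE) : Stmt_LEV := by
  intro m d hm hdm ε hε hε1
  obtain ⟨K, q1, hC⟩ := hCRX m d hm
  obtain ⟨q2, hL1⟩ := hLBE K ε hε hε1
  obtain ⟨q3, hL0⟩ := hLBE 0 (ε / 2) (by linarith) (by linarith)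
  refine ⟨q1 + q2 + q3 + d + ⌈(2 : ℝ) ^ (2 / ε)⌉₊ + ⌈(K + m + 2 * d + 4 : ℝ) * 2 / ε⌉₊ + 2,
    fun q t r hq hr ht h3 => ?_⟩
  have hq1 : (2 : ℝ) ^ (2 / ε) ≤ q := (Nat.le_ceil _).trans (Nat.cast_le.2 (by omega))
  have hq2 : (K + m + 2 * d + 4 : ℝ) * 2 / ε ≤ q :=
    (Nat.le_ceil _).trans (Nat.cast_le.2 (by omega))
  rw [div_le_iff₀ hε] at hq2
  have hK0 : (0 : ℝ) ≤ K := Nat.cast_nonneg _
  have hm0 : (0 : ℝ) ≤ m := Nat.cast_nonneg _
  have hd0 : (0 : ℝ) ≤ d := Nat.cast_nonneg _
  have hqd : d + 1 ≤ q := by omega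
  have hcast : ((q - d : ℕ) : ℝ) = (q : ℝ) - d := by rw [Nat.cast_sub (by omega)]
  obtain ⟨n1, n2⟩ := LEV_num (d := d) hε hε1 hq1 (by linarith) ht h3
  obtain ⟨Λ, χ, hΛ, hχ⟩ := hC q (by omega)
  obtain ⟨L₁, c1, c2, c3⟩ := hL1 q t r (by omega) hr ht h3 Λ hΛ
  obtain ⟨L₀, d1, -, d3⟩ := hL0 (q - d) t r (by omega) hr (by rw [hcast]; exact n1)
    (by rw [hcast]; exact n2) ∅ (by simp)
  have : NeZero (2 * q - 1) := ⟨by omega⟩
  have : NeZero (2 * (q - d) - 1) := ⟨by omega⟩
  have k1 : t + Λ.card + (m + 1) ≤ 2 * q - 1 := by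
    have : (t : ℝ) + K + (m + 1) + 1 ≤ 2 * q := by nlinarith
    have h4 : t + K + (m + 1) + 1 ≤ 2 * q := by exact_mod_cast this
    omega
  have k0 : t + (∅ : Finset (ZMod (2 * (q - d) - 1))).card + (m + 1) ≤ 2 * (q - d) - 1 := by
    have h5 : (t : ℝ) + (m + 1) + 1 ≤ 2 * ((q : ℝ) - d) := by nlinarith
    rw [← hcast] at h5
    have h4 : t + (m + 1) + 1 ≤ 2 * (q - d) := by exact_mod_cast h5
    rw [card_empty]
    omega
  obtain ⟨f₁, b1, b2, b3, b4⟩ := LEV_fun t (m + 1) L₁ Λ c1 c2 (by rw [ZMod.card]; exact k1)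
  obtain ⟨f₀, a1, a2, a3, -⟩ := LEV_fun t (m + 1) L₀ ∅ d1 (disjoint_empty_right _)
    (by rw [ZMod.card]; exact k0)
  have hS := LEV_stru f₀ f₁ (by omega) hχ d3 c3 a1 a2 a3 b1 b2 b3 b4
  have hmain := hABS (VE m q d) (m + 1) (2 * m * q) t r pe χ (LEV_ins f₀ f₁) hr hS
  have hV : Fintype.card (VE m q d) = 2 * (m + 1) * q - 2 * d := by
    rw [← Nat.card_eq_fintype_card, LEV_card (by omega) (by omega)]
    have : 2 * (m + 1) * q = m * (2 * q) + 2 * q := by ring
    omega
  have hp0 : (univ.filter (fun v : VE m q d => pe v = 0)).card = 2 * (q - d) := by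
    have e : (univ.filter (fun v : VE m q d => pe v = 0)) =
        univ.image (Sum.inl : Option (ZMod (2 * (q - d) - 1)) → VE m q d) := by
      ext v
      simp only [mem_filter, mem_univ, true_and, mem_image]
      cases v with
      | inl x => exact ⟨fun _ => ⟨x, rfl⟩, fun _ => rfl⟩
      | inr x =>
        refine ⟨fun h => absurd h (Fin.succ_ne_zero _), ?_⟩
        rintro ⟨y, hy⟩
        cases hy
    rw [e, card_image_of_injective _ Sum.inl_injective, card_univ, Fintype.card_option, ZMod.card]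
    omega
  have hps : ∀ i : Fin m, (univ.filter (fun v : VE m q d => pe v = i.succ)).card = 2 * q := by
    intro i
    have e : (univ.filter (fun v : VE m q d => pe v = i.succ)) =
        univ.image (fun x : Option (ZMod (2 * q - 1)) => (Sum.inr (i, x) : VE m q d)) := by
      ext v
      simp only [mem_filter, mem_univ, true_and, mem_image]
      cases v with
      | inl x =>
        refine ⟨fun h => absurd h.symm (Fin.succ_ne_zero _), ?_⟩
        rintro ⟨y, hy⟩
        cases hy
      | inr x =>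
        constructor
        · intro h
          refine ⟨x.2, ?_⟩
          have h1 : x.1.succ = i.succ := h
          rw [← Fin.succ_injective _ h1]
        · rintro ⟨y, hy⟩
          rw [← Sum.inr.inj hy]
          rfl
    rw [e, card_image_of_injective, card_univ, Fintype.card_option, ZMod.card]
    · omega
    · intro a b hab
      have := Sum.inr.inj hab
      exact (Prod.ext_iff.1 this).2
  rw [hV, Fin.prod_univ_succ, hp0] at hmain
  simp only [hps, prod_const, card_univ, Fintype.card_fin] at hmain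
  have e1 : 2 * (m + 1) * q - 2 * d - 2 * (q - d) + r = 2 * m * q + r := by
    have : 2 * (m + 1) * q = 2 * m * q + 2 * q := by ring
    omega
  have e2 : 2 * (m + 1) * q - 2 * d - 2 * q + r = 2 * m * q - 2 * d + r := by
    have : 2 * (m + 1) * q = 2 * m * q + 2 * q := by ring
    omega
  rw [e1, e2] at hmain
  exact hmain

end Pool.Agent.Work.MP_1ce445_ple
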