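import Pool.Agent.Work.MP_1ce445_ple.Interface

/-!
PEV: the plateaus `M ≥ 2` for all even `n`, from UPV and SLV (helper32). Copy of `MP_1ce445_pln/PLV.lean` without the exact
value.
-/

namespace Pool.Agent.Work.MP_1ce445_ple

open Finset Pool.Agent.Work.MP_1ce445_co_56 Pool.Agent.Work.MP_1ce445_lin
  Pool.Agent.Work.MP_1ce445_fx Pool.Agent.Work.MP_1ce445_stm Pool.Agent.Work.MP_1ce445_plt
  Pool.Agent.Work.MP_1ce445_pln

theorem stmt_PEV (hU : Stmt_UPV) (hL : Stmt_SLV) : Stmt_PEV := by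
  intro M hM ε hε hε1
  obtain ⟨n1, hU⟩ := hU M hM ε hε hε1
  obtain ⟨n2, hL⟩ := hL M hM ε hε hε1
  have hM0 : (0 : ℝ) < M := by
    have : 0 < M := by omega
    exact_mod_cast this
  have hM2 : (2 : ℝ) ≤ M := by exact_mod_cast hM
  refine ⟨n1 + n2 + 1, ?_⟩
  intro n k hn hev hk hc
  have hn0 : (0 : ℝ) < n := by
    have : 0 < n := by omega
    exact_mod_cast this
  -- `τ n = M k - (M - 1) n`
  have hkR : ((M : ℝ) - 1) * n + 3 * M * M ≤ M * k := by
    have h1 : (((M - 1) * n + 3 * M * M : ℕ) : ℝ) ≤ ((M * k : ℕ) : ℝ) := by exact_mod_cast hk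
    rw [Nat.cast_add, Nat.cast_mul, Nat.cast_mul, Nat.cast_mul, Nat.cast_mul,
      Nat.cast_sub (show 1 ≤ M by omega)] at h1
    push_cast at h1
    exact h1
  have hτn : tau n k M * n = M * k - ((M : ℝ) - 1) * n := by
    unfold tau
    field_simp
  have hτ1n : 1 / (n : ℝ) ≤ tau n k M := by
    rw [div_le_iff₀ hn0, hτn]
    nlinarith
  have hτ0 : 0 < tau n k M := lt_of_lt_of_le (by positivity) hτ1n
  have hτ1 : tau n k M < 1 := by
    have h1 : tau n k M = M * ((k : ℝ) / n) - ((M : ℝ) - 1) := by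
      unfold tau
      rw [mul_div_assoc]
    have h2 : (M : ℝ) * ((k : ℝ) / n) ≤ M * cend M := mul_le_mul_of_nonneg_left hc hM0.le
    have h7 : (M : ℝ) * cend M ≤ M - M * (1 / ((M : ℝ) + 1)) := by
      unfold cend
      have h6 : 0 < 1 / (4 * (M : ℝ) ^ 4) := by positivity
      nlinarith
    have h8 : 0 < (M : ℝ) * (1 / ((M : ℝ) + 1)) := by positivity
    rw [h1]
    linarith
  have hlo := hL n k (by omega) hev hk hc
  have hup := hU n k (by omega) hev hτ1n hc
  have hLg : 0 < - Real.log (tau n k M) := by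
    have := Real.log_neg hτ0 hτ1
    linarith
  set ρ : ℝ := Real.log n / (- Real.log (tau n k M)) with hρ
  have hρ0 : 0 ≤ ρ := div_nonneg (Real.log_natCast_nonneg n) hLg.le
  have hB0 : (0 : ℝ) ≤ n - n / M := by
    rw [sub_nonneg, div_le_iff₀ hM0]
    nlinarith
  have hpk : (0 : ℝ) < (n : ℝ) ^ (k - M) := by positivity
  set X : ℝ := (P n k : ℝ) / (n : ℝ) ^ (k - M) with hX
  have hX0 : 0 ≤ X := by positivity
  have hPX : (P n k : ℝ) = (n : ℝ) ^ (k - M) * X := by
    rw [hX]; field_simp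
  have hMne : M ≠ 0 := by omega
  set Y : ℝ := X ^ ((M : ℝ)⁻¹) with hY
  have hY0 : 0 ≤ Y := Real.rpow_nonneg hX0 _
  have hYM : Y ^ M = X := Real.rpow_inv_natCast_pow hX0 hMne
  have hlo' : (n - n / M + (1 - ε) * ρ) ≤ Y := by
    have h1 : (n - n / M + (1 - ε) * ρ) ^ M ≤ Y ^ M := by
      rw [hYM]
      rw [hPX] at hlo
      exact le_of_mul_le_mul_left hlo hpk
    exact le_of_pow_le_pow_left₀ hMne hY0 h1
  have hup' : Y ≤ (n - n / M + (1 + ε) * ρ + 1) := by
    have h1 : Y ^ M ≤ (n - n / M + (1 + ε) * ρ + 1) ^ M := by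
      rw [hYM]
      rw [hPX] at hup
      exact le_of_mul_le_mul_left hup hpk
    have h2 : 0 ≤ (1 + ε) * ρ := by positivity
    exact le_of_pow_le_pow_left₀ hMne (by linarith) h1
  have hε' : 0 ≤ (1 - ε) * ρ := mul_nonneg (by linarith) hρ0
  refine ⟨Y - (n - n / M), by linarith, ?_, by linarith, by linarith⟩
  have h1 : (n : ℝ) - n / M + (Y - (n - n / M)) = Y := by ring
  rw [h1, hYM]
  exact hPX

end Pool.Agent.Work.MP_1ce445_ple
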