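import Pool.Agent.Work.MP_1ce445_ple.Interface

/-! Block PSI (helper49): the numbering of the vertices of two blocks. -/

namespace Pool.Agent.Work.MP_1ce445_ple

open Finset Pool.Agent.Work.MP_1ce445_co_56 Pool.Agent.Work.MP_1ce445_lin
  Pool.Agent.Work.MP_1ce445_fx Pool.Agent.Work.MP_1ce445_stm Pool.Agent.Work.MP_1ce445_plt
  Pool.Agent.Work.MP_1ce445_pln

/-- the numbers of the vertices -/
def PSI_g (q : ℕ) : Bool → ℕ → Option ℕ
  | false, v => if v % 2 = 0 then some (v / 2) else some (2 * q - 2 - v / 2)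
  | true, v => if v = q - 1 then none else
      if v % 2 = 0 then some (q - 1 - v / 2) else some (q + v / 2)

lemma PSI_lt {q : ℕ} (hq : 2 ≤ q) {b : Bool} {v s : ℕ} (hv : v < q) (h : PSI_g q b v = some s) :
    s < 2 * q - 1 := by
  cases b
  · simp only [PSI_g] at h
    split_ifs at h <;> simp only [Option.some.injEq] at h <;> omega
  · simp only [PSI_g] at h
    split_ifs at h <;> simp only [Option.some.injEq, reduceCtorEq] at h <;> omega

lemma PSI_inj {q : ℕ} (hq : 2 ≤ q) {b b' : Bool} {v v' : ℕ} (hv : v < q) (hv' : v' < q)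
    (h : PSI_g q b v = PSI_g q b' v') : b = b' ∧ v = v' := by
  cases b <;> cases b' <;> simp only [PSI_g] at h <;> split_ifs at h <;>
    simp only [Option.some.injEq, reduceCtorEq] at h <;>
    first
      | exact absurd h (by omega)
      | exact ⟨rfl, by omega⟩

lemma PSI_sum {q : ℕ} {b : Bool} {v l : ℕ} (hv : v + (2 * l + 1) < q - 1) :
    ∃ s s', PSI_g q b v = some s ∧ PSI_g q b (v + (2 * l + 1)) = some s' ∧
      (s + s' = 2 * q - 2 - l ∨ s + s' = 2 * q - 1 + l) := by
  cases b
  · simp only [PSI_g]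
    rcases Nat.even_or_odd' v with ⟨j, rfl | rfl⟩
    · rw [if_pos (by omega), if_neg (by omega)]
      exact ⟨_, _, rfl, rfl, Or.inl (by omega)⟩
    · rw [if_neg (by omega), if_pos (by omega)]
      exact ⟨_, _, rfl, rfl, Or.inr (by omega)⟩
  · simp only [PSI_g]
    rw [if_neg (show ¬ v = q - 1 by omega), if_neg (show ¬ v + (2 * l + 1) = q - 1 by omega)]
    rcases Nat.even_or_odd' v with ⟨j, rfl | rfl⟩
    · rw [if_pos (by omega), if_neg (by omega)]
      exact ⟨_, _, rfl, rfl, Or.inr (by omega)⟩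
    · rw [if_neg (by omega), if_pos (by omega)]
      exact ⟨_, _, rfl, rfl, Or.inl (by omega)⟩

/-- the numbering -/
def PSI_f (q : ℕ) (z : Bool × ZMod q) : Option (ZMod (2 * q - 1)) :=
  (PSI_g q z.1 z.2.val).map (fun s : ℕ => (s : ZMod (2 * q - 1)))

lemma PSI_cast {q s s' : ℕ} (hs : s < 2 * q - 1) (hs' : s' < 2 * q - 1)
    (h : (s : ZMod (2 * q - 1)) = (s' : ZMod (2 * q - 1))) : s = s' := by
  have h1 := (ZMod.natCast_eq_natCast_iff' s s' (2 * q - 1)).1 h
  rwa [Nat.mod_eq_of_lt hs, Nat.mod_eq_of_lt hs'] at h1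

lemma PSI_finj {q : ℕ} (hq : 2 ≤ q) : Function.Injective (PSI_f q) := by
  haveI : NeZero q := ⟨by omega⟩
  rintro ⟨b, z⟩ ⟨b', z'⟩ h
  have hz := ZMod.val_lt z
  have hz' := ZMod.val_lt z'
  simp only [PSI_f] at h
  have h1 : PSI_g q b z.val = PSI_g q b' z'.val := by
    rcases h2 : PSI_g q b z.val with _ | s <;> rcases h3 : PSI_g q b' z'.val with _ | s'
    · rfl
    · rw [h2, h3] at h
      simp at h
    · rw [h2, h3] at h
      simp at h
    · rw [h2, h3] at h
      simp only [Option.map_some, Option.some.injEq] at h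
      rw [PSI_cast (PSI_lt hq hz h2) (PSI_lt hq hz' h3) h]
  obtain ⟨h4, h5⟩ := PSI_inj hq hz hz' h1
  rw [h4, ZMod.val_injective q h5]

theorem stmt_PSI : Stmt_PSI := by
  intro d
  refine ⟨2 * d + 4 * d ^ 2, 2 * d + 2, fun q hq => ?_⟩
  haveI : NeZero q := ⟨by omega⟩
  haveI : NeZero (2 * q - 1) := ⟨by omega⟩
  have hq2 : 2 ≤ q := by omega
  have hbij : Function.Bijective (PSI_f q) := by
    rw [Fintype.bijective_iff_injective_and_card]
    refine ⟨PSI_finj hq2, ?_⟩
    simp only [Fintype.card_prod, Fintype.card_bool, ZMod.card, Fintype.card_option]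
    omega
  set F : Bool × ℕ × ℕ → ZMod (2 * q - 1) := fun x =>
    lbl (PSI_f q (x.1, ((q - 1 - x.2.1 : ℕ) : ZMod q)))
      (PSI_f q (x.1, ((q - 1 - x.2.1 : ℕ) : ZMod q) + ((2 * x.2.2 + 1 : ℕ) : ZMod q))) with hF
  refine ⟨(Equiv.ofBijective (PSI_f q) hbij).symm,
    (((range d).image (fun l : ℕ => ((2 * q - 2 - l : ℕ) : ZMod (2 * q - 1)))) ∪
      ((range d).image (fun l : ℕ => (l : ZMod (2 * q - 1))))) ∪
      ((univ : Finset Bool) ×ˢ (range (2 * d) ×ˢ range d)).image F, ?_, ?_⟩
  · refine (card_union_le _ _).trans ?_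
    have h1 : (((range d).image (fun l : ℕ => ((2 * q - 2 - l : ℕ) : ZMod (2 * q - 1)))) ∪
      ((range d).image (fun l : ℕ => (l : ZMod (2 * q - 1))))).card ≤ 2 * d := by
      refine (card_union_le _ _).trans ?_
      have h2 := card_image_le (s := range d)
        (f := fun l : ℕ => ((2 * q - 2 - l : ℕ) : ZMod (2 * q - 1)))
      have h3 := card_image_le (s := range d) (f := fun l : ℕ => (l : ZMod (2 * q - 1)))
      rw [card_range] at h2 h3
      omega
    have h2 : (((univ : Finset Bool) ×ˢ (range (2 * d) ×ˢ range d)).image F).card ≤ 4 * d ^ 2 := by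
      refine card_image_le.trans ?_
      rw [card_product, card_product, card_range, card_range, card_univ, Fintype.card_bool]
      exact le_of_eq (by ring)
    omega
  · intro b z l hl
    have hz := ZMod.val_lt z
    simp only [Equiv.symm_symm, Equiv.ofBijective_apply]
    by_cases h : z.val + (2 * l + 1) < q - 1
    · obtain ⟨s, s', h1, h2, h3⟩ := PSI_sum (b := b) h
      have h4 : (z + ((2 * l + 1 : ℕ) : ZMod q)).val = z.val + (2 * l + 1) := by
        have h5 : (((2 * l + 1 : ℕ) : ZMod q)).val = 2 * l + 1 := ZMod.val_natCast_of_lt (by omega)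
        rw [ZMod.val_add_of_lt (by rw [h5]; omega), h5]
      have h5 : lbl (PSI_f q (b, z)) (PSI_f q (b, z + ((2 * l + 1 : ℕ) : ZMod q))) =
          ((s + s' : ℕ) : ZMod (2 * q - 1)) := by
        simp only [PSI_f]
        rw [h4, h1, h2]
        simp only [Option.map_some, lbl]
        push_cast
        rfl
      rw [h5]
      refine mem_union_left _ ?_
      rcases h3 with h3 | h3
      · refine mem_union_left _ ?_
        rw [h3]
        exact mem_image.2 ⟨l, mem_range.2 hl, rfl⟩
      · refine mem_union_right _ ?_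
        rw [h3]
        refine mem_image.2 ⟨l, mem_range.2 hl, ?_⟩
        rw [Nat.cast_add, ZMod.natCast_self, zero_add]
    · refine mem_union_right _ ?_
      refine mem_image.2 ⟨(b, q - 1 - z.val, l), ?_, ?_⟩
      · simp only [mem_product, mem_univ, mem_range, true_and]
        omega
      · simp only [hF]
        have h6 : ((q - 1 - (q - 1 - z.val) : ℕ) : ZMod q) = z := by
          rw [show q - 1 - (q - 1 - z.val) = z.val by omega, ZMod.natCast_zmod_val]
        rw [h6]

end Pool.Agent.Work.MP_1ce445_ple
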