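import Pool.Agent.Work.MP_1ce445_ple.Interface

/-!
Block SLV of the plateaus for all even n (helper88): the numbers.
-/

set_option autoImplicit false

namespace Pool.Agent.Work.MP_1ce445_ple

open Finset Pool.Agent.Work.MP_1ce445_co_56 Pool.Agent.Work.MP_1ce445_lin
  Pool.Agent.Work.MP_1ce445_fx Pool.Agent.Work.MP_1ce445_stm Pool.Agent.Work.MP_1ce445_plt
  Pool.Agent.Work.MP_1ce445_pln

/-- Bernoulli -/
lemma SLV_prod {m : ℕ} {a β δ : ℝ} (hm : 1 ≤ m) (ha : 0 < a) (hβa : β ≤ a)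
    (hδ : 0 ≤ δ) (hδa : δ ≤ a) (h : β ^ 2 ≤ δ * a) (hβ : 0 ≤ β) :
    (a - δ) ^ (m + 1) ≤ (a + β) * (a - β / m) ^ m := by
  have hmr : (1 : ℝ) ≤ m := by exact_mod_cast hm
  have hm0 : (0 : ℝ) < m := by linarith
  have h1 : a ^ m * (1 - β / a) ≤ (a - β / m) ^ m := by
    have e1 : (a - β / m) ^ m = a ^ m * (1 + -(β / (m * a))) ^ m := by
      rw [← mul_pow]
      congr 1
      field_simp
      ring
    rw [e1]
    refine mul_le_mul_of_nonneg_left ?_ (by positivity)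
    have e2 : -2 ≤ -(β / (m * a)) := by
      have : β / (m * a) ≤ 1 := by
        rw [div_le_one (by positivity)]
        nlinarith
      linarith
    refine le_trans (le_of_eq ?_) (one_add_mul_le_pow e2 m)
    field_simp
    ring
  calc (a - δ) ^ (m + 1) = (a - δ) ^ m * (a - δ) := pow_succ _ _
    _ ≤ a ^ m * (a - δ) :=
        mul_le_mul_of_nonneg_right (pow_le_pow_left₀ (by linarith) (by linarith) m) (by linarith)
    _ ≤ a ^ m * ((a + β) * (1 - β / a)) := by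
        refine mul_le_mul_of_nonneg_left ?_ (by positivity)
        have e1 : (a + β) * (1 - β / a) = a - β ^ 2 / a := by
          field_simp
          ring
        have e2 : β ^ 2 / a ≤ δ := by
          rw [div_le_iff₀ ha]
          exact h
        rw [e1]
        linarith
    _ = (a + β) * (a ^ m * (1 - β / a)) := by ring
    _ ≤ (a + β) * (a - β / m) ^ m := mul_le_mul_of_nonneg_left h1 (by linarith)

/-- the hypothesis of LEV -/
lemma SLV_cond {M N ε τ x t d : ℝ} {s : ℕ} (hM : 2 ≤ M) (hε : 0 < ε) (hε1 : ε < 1) (hN : 1 ≤ N)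
    (hG : 24 * M ^ 2 / ε ≤ N ^ (ε / 4)) (hτ : 0 < τ) (hτ1 : τ ≤ 1 / 3)
    (hNτ : 3 * M ^ 2 ≤ N * τ) (hx : M * x = N + 2 * d) (hd0 : 0 ≤ d) (hd : d ≤ M)
    (ht : M * t = N * τ - M ^ 2 - 2 * d * (M - 1))
    (hs : (s : ℝ) * (-Real.log τ) ≤ (1 - ε / 2) * Real.log N) :
    1 ≤ x ^ (1 - ε / 8) * (t / x) ^ s := by
  have hM0 : 0 < M := by linarith
  have hN0 : 0 < N := by linarith
  have hNM : N ≤ M * x := by linarith
  have hN3 : 3 * M ^ 2 ≤ N := by nlinarith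
  have hx1 : 1 ≤ x := by
    by_contra hx1
    push Not at hx1
    nlinarith
  have hx0 : 0 < x := by linarith
  rcases Nat.eq_zero_or_pos s with hs0 | hs0
  · subst hs0
    rw [pow_zero, mul_one]
    exact Real.one_le_rpow hx1 (by linarith)
  have hs1 : (1 : ℝ) ≤ s := by exact_mod_cast hs0
  have hL0 : 0 ≤ Real.log N := Real.log_nonneg hN
  have hlam : 2 / 3 ≤ -Real.log τ := by
    have := Real.log_le_sub_one_of_pos hτ
    linarith
  have hlam1 : -Real.log τ ≤ (1 - ε / 2) * Real.log N := by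
    refine le_trans ?_ hs
    nlinarith
  set G : ℝ := N ^ (ε / 4) with hGdef
  have hG0 : 0 < G := by positivity
  have hlogN : Real.log N ≤ 4 * G / ε := by
    have h1 := Real.log_le_rpow_div hN0.le (by positivity : 0 < ε / 4)
    refine h1.trans (le_of_eq ?_)
    rw [hGdef]
    field_simp
  have hτN : N ^ (-(1 - ε / 2)) ≤ τ := by
    rw [Real.rpow_def_of_pos hN0]
    have h1 : Real.exp (Real.log N * -(1 - ε / 2)) ≤ Real.exp (Real.log τ) :=
      Real.exp_le_exp.2 (by linarith)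
    rwa [Real.exp_log hτ] at h1
  have hGG : G * G ≤ N * τ := by
    have h1 : G * G = N * N ^ (-(1 - ε / 2)) := by
      rw [hGdef, ← Real.rpow_add hN0]
      nth_rewrite 2 [← Real.rpow_one N]
      rw [← Real.rpow_add hN0]
      congr 1
      ring
    rw [h1]
    exact mul_le_mul_of_nonneg_left hτN hN0.le
  -- `e`
  have hNτ0 : 0 < N * τ := by positivity
  set e : ℝ := 3 * M ^ 2 / (N * τ) with he
  have he0 : 0 ≤ e := by positivity
  have he1 : e ≤ 1 := by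
    rw [he, div_le_one hNτ0]
    exact hNτ
  have htx : τ * (1 - e) ≤ t / x := by
    rw [le_div_iff₀ hx0]
    have h1 : M * (τ * (1 - e) * x) ≤ M * t := by
      have h2 : M * (τ * (1 - e) * x) = (τ - 3 * M ^ 2 / N) * (N + 2 * d) := by
        rw [← hx, he]
        field_simp
      have h3 : (τ - 3 * M ^ 2 / N) * (N + 2 * d) =
          τ * N - 3 * M ^ 2 + 2 * d * τ - 2 * d * (3 * M ^ 2 / N) := by
        field_simp
        ring
      have h4 : 0 ≤ 2 * d * (3 * M ^ 2 / N) := by positivity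
      have h5 : 2 * d * τ ≤ 2 * d * 1 := mul_le_mul_of_nonneg_left (by linarith) (by linarith)
      rw [h2, h3, ht]
      nlinarith
    exact le_of_mul_le_mul_left h1 hM0
  have hse : (s : ℝ) * e ≤ 3 / 4 := by
    have h1 : (s : ℝ) ≤ 3 / 2 * Real.log N := by
      have h2 : (s : ℝ) * (2 / 3) ≤ (s : ℝ) * (-Real.log τ) :=
        mul_le_mul_of_nonneg_left hlam (by linarith)
      have h3 : (1 - ε / 2) * Real.log N ≤ 1 * Real.log N :=
        mul_le_mul_of_nonneg_right (by linarith) hL0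
      linarith
    have h2 : (s : ℝ) ≤ 6 * G / ε := by
      have h3 : 6 * G / ε = 3 / 2 * (4 * G / ε) := by ring
      linarith
    have h3 : e ≤ 3 * M ^ 2 / (G * G) := by
      rw [he]
      exact div_le_div_of_nonneg_left (by positivity) (by positivity) hGG
    calc (s : ℝ) * e ≤ (6 * G / ε) * (3 * M ^ 2 / (G * G)) :=
          mul_le_mul h2 h3 he0 (by positivity)
      _ = 3 / 4 * ((24 * M ^ 2 / ε) / G) := by
          field_simp
          ring
      _ ≤ 3 / 4 * 1 := by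
          refine mul_le_mul_of_nonneg_left ?_ (by norm_num)
          rw [div_le_one hG0]
          exact hG
      _ = 3 / 4 := mul_one _
  have hpow : τ ^ s * (1 / 4) ≤ (t / x) ^ s := by
    have h1 : (τ * (1 - e)) ^ s ≤ (t / x) ^ s :=
      pow_le_pow_left₀ (mul_nonneg hτ.le (by linarith)) htx s
    refine le_trans ?_ h1
    rw [mul_pow]
    refine mul_le_mul_of_nonneg_left ?_ (by positivity)
    have h2 := one_add_mul_le_pow (a := -e) (by linarith) s
    have h3 : (1 + -e) ^ s = (1 - e) ^ s := by rw [← sub_eq_add_neg]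
    rw [h3] at h2
    linarith
  have hτs : N ^ (-(1 - ε / 2)) ≤ τ ^ s := by
    rw [Real.rpow_def_of_pos hN0]
    nth_rewrite 1 [← Real.exp_log hτ]
    rw [← Real.exp_nat_mul]
    exact Real.exp_le_exp.2 (by linarith)
  have hxN : N ^ (1 - ε / 8) / M ≤ x ^ (1 - ε / 8) := by
    have h1 : (N / M) ^ (1 - ε / 8) ≤ x ^ (1 - ε / 8) := by
      apply Real.rpow_le_rpow (by positivity) _ (by linarith)
      rw [div_le_iff₀ hM0]
      linarith
    refine le_trans ?_ h1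
    rw [Real.div_rpow hN0.le hM0.le]
    apply div_le_div_of_nonneg_left (by positivity) (by positivity)
    calc M ^ (1 - ε / 8) ≤ M ^ (1 : ℝ) :=
          Real.rpow_le_rpow_of_exponent_le (by linarith) (by linarith)
      _ = M := Real.rpow_one M
  have hfin : 1 ≤ N ^ (1 - ε / 8) / M * (N ^ (-(1 - ε / 2)) * (1 / 4)) := by
    have h1 : N ^ (1 - ε / 8) / M * (N ^ (-(1 - ε / 2)) * (1 / 4)) =
        N ^ (3 * ε / 8) / (4 * M) := by
      have h2 : N ^ (1 - ε / 8) * N ^ (-(1 - ε / 2)) = N ^ (3 * ε / 8) := by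
        rw [← Real.rpow_add hN0]
        congr 1
        ring
      rw [← h2]
      field_simp
    rw [h1, one_le_div (by positivity)]
    have h3 : G ≤ N ^ (3 * ε / 8) := by
      rw [hGdef]
      exact Real.rpow_le_rpow_of_exponent_le hN (by linarith)
    refine le_trans ?_ h3
    refine le_trans ?_ hG
    rw [le_div_iff₀ hε]
    have h4 : 4 * M * ε ≤ 4 * M * 1 := mul_le_mul_of_nonneg_left hε1.le (by linarith)
    nlinarith
  calc (1 : ℝ) ≤ N ^ (1 - ε / 8) / M * (N ^ (-(1 - ε / 2)) * (1 / 4)) := hfin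
    _ ≤ x ^ (1 - ε / 8) * (τ ^ s * (1 / 4)) := by
        apply mul_le_mul hxN _ (by positivity) (by positivity)
        exact mul_le_mul_of_nonneg_right hτs (by norm_num)
    _ ≤ x ^ (1 - ε / 8) * (t / x) ^ s := mul_le_mul_of_nonneg_left hpow (by positivity)

theorem stmt_SLV (h : Stmt_LEV) : Stmt_SLV := by
  intro M hM ε hε hε1
  obtain ⟨m, rfl⟩ : ∃ m, M = m + 1 := ⟨M - 1, by omega⟩
  have hm : 1 ≤ m := by omega
  have h2 : ∀ d, d ≤ m → _ := fun d hd =>
    h m d hm hd (ε / 8) (by linarith) (by linarith)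
  choose! q0 hq0 using h2
  obtain ⟨Q, hQ⟩ : ∃ Q, ∀ d, d ≤ m → q0 d ≤ Q :=
    ⟨(range (m + 1)).sup q0, fun d hd => le_sup (f := q0) (mem_range.2 (by omega))⟩
  obtain ⟨n1, hn1⟩ : ∃ n1 : ℕ, (24 * ((m : ℝ) + 1) ^ 2 / ε) ^ (4 / ε) ≤ n1 :=
    ⟨⌈_⌉₊, Nat.le_ceil _⟩
  obtain ⟨n2, hn2⟩ : ∃ n2 : ℕ, 32 * ((m : ℝ) + 1) ^ 2 / ε ≤ n2 := ⟨⌈_⌉₊, Nat.le_ceil _⟩
  refine ⟨2 * (m + 1) * (Q + 1) + n1 + n2, ?_⟩
  intro n k hn hev hk hkn
  obtain ⟨n', rfl⟩ := hev
  obtain ⟨q, d, hqd, hd⟩ : ∃ q d, (m + 1) * q = n' + d ∧ d ≤ m := by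
    refine ⟨(n' + m) / (m + 1), (m + 1) * ((n' + m) / (m + 1)) - n', ?_, ?_⟩
    · have h1 := Nat.div_add_mod (n' + m) (m + 1)
      have h2 := Nat.mod_lt (n' + m) (Nat.succ_pos m)
      simp only [Nat.succ_eq_add_one] at h2
      omega
    · have h1 := Nat.div_add_mod (n' + m) (m + 1)
      omega
  have hnQ : (m + 1) * (Q + 1) ≤ n' := by nlinarith
  have hqQ : Q + 1 ≤ q := by
    have h1 : (m + 1) * (Q + 1) ≤ (m + 1) * q := by omega
    exact Nat.le_of_mul_le_mul_left h1 (Nat.succ_pos m)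
  have hq1 : 1 ≤ q := by omega
  have hdm : d * m ≤ m * m := Nat.mul_le_mul_right m hd
  have hkq : 2 * m * q + (m + 1) ≤ k := by
    have h1 : (m + 1) * (2 * m * q + (m + 1)) ≤ (m + 1) * k := by
      have h2 : (m + 1) * (2 * m * q + (m + 1)) = 2 * m * ((m + 1) * q) + (m + 1) * (m + 1) := by
        ring
      rw [h2, hqd]
      have h3 : m + 1 - 1 = m := rfl
      rw [h3] at hk
      nlinarith
    exact Nat.le_of_mul_le_mul_left h1 (Nat.succ_pos m)
  obtain ⟨t, rfl⟩ : ∃ t, k = 2 * m * q + t + (m + 1) := ⟨k - (2 * m * q + (m + 1)), by omega⟩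
  have hdq : 2 * d ≤ 2 * m * q := by nlinarith
  have hnn : n' + n' = 2 * (m + 1) * q - 2 * d := by
    have h1 : 2 * (m + 1) * q = 2 * ((m + 1) * q) := by ring
    rw [h1, hqd]
    omega
  -- real numbers
  have hmr : (1 : ℝ) ≤ m := by exact_mod_cast hm
  have hdr : (d : ℝ) ≤ m := by exact_mod_cast hd
  have hd0 : (0 : ℝ) ≤ d := Nat.cast_nonneg d
  obtain ⟨N, hN⟩ : ∃ N : ℝ, N = ((n' + n' : ℕ) : ℝ) := ⟨_, rfl⟩
  have hNq : N = 2 * ((m : ℝ) + 1) * q - 2 * d := by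
    have h1 : ((m : ℝ) + 1) * q = n' + d := by exact_mod_cast hqd
    rw [hN]
    push_cast
    linarith
  have hNn1 : (n1 : ℝ) ≤ N := by
    rw [hN]
    exact_mod_cast (by omega : n1 ≤ n' + n')
  have hNn2 : (n2 : ℝ) ≤ N := by
    rw [hN]
    exact_mod_cast (by omega : n2 ≤ n' + n')
  have hN1 : 1 ≤ N := by
    rw [hN]
    have : 1 ≤ n' + n' := by nlinarith
    exact_mod_cast this
  have hN0 : 0 < N := by linarith
  have hG : 24 * ((m : ℝ) + 1) ^ 2 / ε ≤ N ^ (ε / 4) := by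
    have h1 : ((24 * ((m : ℝ) + 1) ^ 2 / ε) ^ (4 / ε)) ^ (ε / 4) ≤ N ^ (ε / 4) :=
      Real.rpow_le_rpow (by positivity) (by linarith) (by positivity)
    rw [← Real.rpow_mul (by positivity)] at h1
    have h3 : 4 / ε * (ε / 4) = 1 := by field_simp
    rw [h3, Real.rpow_one] at h1
    exact h1
  obtain ⟨τ, hτ⟩ : ∃ τ : ℝ, τ = tau (n' + n') (2 * m * q + t + (m + 1)) (m + 1) := ⟨_, rfl⟩
  have hNτ : N * τ = ((m : ℝ) + 1) * (2 * m * q + t + (m + 1)) - m * N := by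
    rw [hτ]
    unfold tau
    rw [← hN]
    push_cast
    field_simp
    ring
  have ht : ((m : ℝ) + 1) * t = N * τ - ((m : ℝ) + 1) ^ 2 - 2 * d * (((m : ℝ) + 1) - 1) := by
    rw [hNτ, hNq]
    ring
  have hNτ3 : 3 * ((m : ℝ) + 1) ^ 2 ≤ N * τ := by
    have h1 : ((m : ℝ) + 1 - 1) * N + 3 * ((m : ℝ) + 1) * ((m : ℝ) + 1) ≤
        ((m : ℝ) + 1) * (2 * m * q + t + (m + 1)) := by
      have h3 : m + 1 - 1 = m := rfl
      rw [h3] at hk
      have h4 : ((m * (n' + n') + 3 * (m + 1) * (m + 1) : ℕ) : ℝ) ≤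
          (((m + 1) * (2 * m * q + t + (m + 1)) : ℕ) : ℝ) := by exact_mod_cast hk
      rw [Nat.cast_add, Nat.cast_mul, ← hN] at h4
      push_cast at h4
      linarith
    rw [hNτ]
    linarith
  have hτ0 : 0 < τ := by
    by_contra h1
    push Not at h1
    have : N * τ ≤ 0 := mul_nonpos_of_nonneg_of_nonpos hN0.le h1
    nlinarith
  have hτ1 : τ ≤ 1 / 3 := by
    have h1 : ((2 * m * q + t + (m + 1) : ℕ) : ℝ) / ((n' + n' : ℕ) : ℝ) ≤
        1 - 1 / (((m : ℝ) + 1) + 1) := by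
      refine hkn.trans ?_
      unfold cend
      push_cast
      have : 0 < 1 / (4 * ((m : ℝ) + 1) ^ 4) := by positivity
      linarith
    have h3 : τ = ((m : ℝ) + 1) * (((2 * m * q + t + (m + 1) : ℕ) : ℝ) / ((n' + n' : ℕ) : ℝ)) -
        m := by
      rw [hτ]
      unfold tau
      push_cast
      ring
    have h4 : ((m : ℝ) + 1) * (((2 * m * q + t + (m + 1) : ℕ) : ℝ) / ((n' + n' : ℕ) : ℝ)) ≤
        ((m : ℝ) + 1) * (1 - 1 / (((m : ℝ) + 1) + 1)) :=
      mul_le_mul_of_nonneg_left h1 (by linarith)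
    have h5 : ((m : ℝ) + 1) * (1 - 1 / (((m : ℝ) + 1) + 1)) - m = 1 / (((m : ℝ) + 1) + 1) := by
      field_simp
      ring
    have h6 : 1 / (((m : ℝ) + 1) + 1) ≤ 1 / 3 :=
      one_div_le_one_div_of_le (by norm_num) (by linarith)
    linarith
  have hlog : 0 < -Real.log τ := by
    have := Real.log_neg hτ0 (by linarith)
    linarith
  have hlogN : 0 ≤ Real.log N := Real.log_nonneg hN1
  have hρ1 : 1 ≤ Real.log N / (-Real.log τ) := by
    rw [one_le_div hlog]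
    have h1 : 0 ≤ Real.log (N * τ) := by
      apply Real.log_nonneg
      nlinarith
    rw [Real.log_mul hN0.ne' hτ0.ne'] at h1
    linarith
  obtain ⟨ρ, hρ⟩ : ∃ ρ : ℝ, ρ = Real.log N / (-Real.log τ) := ⟨_, rfl⟩
  rw [← hρ] at hρ1
  have hρl : ρ * (-Real.log τ) = Real.log N := by
    rw [hρ, div_mul_cancel₀ _ hlog.ne']
  obtain ⟨s, hs1, hs2⟩ : ∃ s : ℕ, (s : ℝ) ≤ (1 - ε / 2) * ρ ∧ (1 - ε / 2) * ρ < s + 1 :=
    ⟨⌊(1 - ε / 2) * ρ⌋₊, Nat.floor_le (by nlinarith), Nat.lt_floor_add_one _⟩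
  have hcond : 1 ≤ (2 * (q : ℝ)) ^ (1 - ε / 8) * ((t : ℝ) / (2 * q)) ^ (s + 1 - 1) := by
    rw [Nat.add_sub_cancel]
    refine SLV_cond (M := (m : ℝ) + 1) (N := N) (τ := τ) (d := d) (by linarith) hε hε1 hN1 hG hτ0
      hτ1 hNτ3 (by rw [hNq]; ring) hd0 (by linarith) ht ?_
    have h1 : (s : ℝ) * (-Real.log τ) ≤ (1 - ε / 2) * ρ * (-Real.log τ) :=
      mul_le_mul_of_nonneg_right hs1 hlog.le
    rw [mul_assoc, hρl] at h1
    exact h1
  have hmain := hq0 d hd q t (s + 1) ((hQ d hd).trans (by omega)) (Nat.le_add_left _ _)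
    (by
      have h1 : ((m : ℝ) + 1) * t ≤ N * (1 / 3) := by
        have h3 : N * τ ≤ N * (1 / 3) := mul_le_mul_of_nonneg_left hτ1 hN0.le
        have h4 : 0 ≤ 2 * (d : ℝ) * (((m : ℝ) + 1) - 1) := by
          have : (0 : ℝ) ≤ ((m : ℝ) + 1) - 1 := by linarith
          positivity
        nlinarith
      have h2 : ((m : ℝ) + 1) * t ≤ ((m : ℝ) + 1) * ((1 - ε / 8) * (2 * q)) := by
        rw [hNq] at h1
        have hq0 : (0 : ℝ) ≤ q := Nat.cast_nonneg q
        have h3 : (2 / 3 : ℝ) * (2 * q) ≤ (1 - ε / 8) * (2 * q) :=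
          mul_le_mul_of_nonneg_right (by linarith) (by linarith)
        have h4 : ((m : ℝ) + 1) * ((2 / 3 : ℝ) * (2 * q)) ≤
            ((m : ℝ) + 1) * ((1 - ε / 8) * (2 * q)) := mul_le_mul_of_nonneg_left h3 (by linarith)
        have h5 : 0 ≤ ((m : ℝ) + 1) * q := by positivity
        nlinarith
      exact le_of_mul_le_mul_left h2 (by linarith)) hcond
  rw [← hnn] at hmain
  -- the product
  obtain ⟨a, ha⟩ : ∃ a : ℝ, a = N - N / ((m : ℝ) + 1) + (s + 1) := ⟨_, rfl⟩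
  have hNN : N - N / ((m : ℝ) + 1) = 2 * m * q - 2 * d * m / ((m : ℝ) + 1) := by
    rw [hNq]
    field_simp
    ring
  have hN32 : 32 * ((m : ℝ) + 1) ^ 2 ≤ N * ε := by
    rw [div_le_iff₀ hε] at hn2
    have : (n2 : ℝ) * ε ≤ N * ε := mul_le_mul_of_nonneg_right hNn2 hε.le
    linarith
  have hNhalf : N / 2 ≤ N - N / ((m : ℝ) + 1) := by
    have h1 : N / ((m : ℝ) + 1) ≤ N / 2 := div_le_div_of_nonneg_left hN0.le (by norm_num) (by linarith)
    linarith
  have hs0 : (0 : ℝ) ≤ s := Nat.cast_nonneg s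
  have haN : N / 2 ≤ a := by
    rw [ha]
    linarith
  have hβ0 : 0 ≤ 2 * (d : ℝ) * m / ((m : ℝ) + 1) := by positivity
  have hβ1 : 2 * (d : ℝ) * m / ((m : ℝ) + 1) ≤ 2 * ((m : ℝ) + 1) := by
    rw [div_le_iff₀ (by linarith)]
    nlinarith
  have hNbig : 32 * ((m : ℝ) + 1) ^ 2 ≤ N := by nlinarith
  have hprod := SLV_prod (m := m) (a := a) (β := 2 * (d : ℝ) * m / ((m : ℝ) + 1)) (δ := ε / 4) hm
    (by linarith) (by nlinarith) (by linarith) (by nlinarith)
    (by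
      have h1 : (2 * (d : ℝ) * m / ((m : ℝ) + 1)) ^ 2 ≤ (2 * ((m : ℝ) + 1)) ^ 2 :=
        pow_le_pow_left₀ hβ0 hβ1 2
      have h3 : ε / 4 * (N / 2) ≤ ε / 4 * a := mul_le_mul_of_nonneg_left haN (by linarith)
      nlinarith) hβ0
  have e1 : a + 2 * (d : ℝ) * m / ((m : ℝ) + 1) = 2 * m * q + (s + 1) := by
    rw [ha, hNN]
    ring
  have e2 : a - 2 * (d : ℝ) * m / ((m : ℝ) + 1) / m = 2 * m * q - 2 * d + (s + 1) := by
    rw [ha, hNN]
    field_simp
    ring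
  rw [e1, e2] at hprod
  have hbase : N - N / ((m : ℝ) + 1) + (1 - ε) * ρ ≤ a - ε / 4 := by
    rw [ha]
    nlinarith
  have hbase0 : 0 ≤ N - N / ((m : ℝ) + 1) + (1 - ε) * ρ := by
    have : 0 ≤ (1 - ε) * ρ := mul_nonneg (by linarith) (by linarith)
    linarith
  have hpow : (N - N / ((m : ℝ) + 1) + (1 - ε) * ρ) ^ (m + 1) ≤
      (2 * m * q + (s + 1)) * (2 * m * q - 2 * d + (s + 1)) ^ m :=
    (pow_le_pow_left₀ hbase0 hbase (m + 1)).trans hprod
  have hexp : 2 * m * q + t + (m + 1) - (m + 1) = 2 * m * q + t := Nat.add_sub_cancel _ _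
  rw [hexp, ← hτ, ← hN, Nat.cast_add m 1, Nat.cast_one, ← hρ]
  calc N ^ (2 * m * q + t) * (N - N / ((m : ℝ) + 1) + (1 - ε) * ρ) ^ (m + 1)
      ≤ N ^ (2 * m * q + t) * ((2 * m * q + (s + 1)) * (2 * m * q - 2 * d + (s + 1)) ^ m) :=
        mul_le_mul_of_nonneg_left hpow (by positivity)
    _ = (((n' + n') ^ (2 * m * q + t) *
          ((2 * m * q + (s + 1)) * (2 * m * q - 2 * d + (s + 1)) ^ m) : ℕ) : ℝ) := by
        rw [hN]
        push_cast [Nat.cast_sub hdq]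
        ring
    _ ≤ (P (n' + n') (2 * m * q + t + (m + 1)) : ℝ) := by exact_mod_cast hmain

end Pool.Agent.Work.MP_1ce445_ple
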