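import Pool.Agent.Work.MP_1ce445_pln.All
import Pool.Agent.Work.MP_1ce445_ple.PSI
import Pool.Agent.Work.MP_1ce445_ple.BLO
import Pool.Agent.Work.MP_1ce445_ple.CRX
import Pool.Agent.Work.MP_1ce445_ple.ABS
import Pool.Agent.Work.MP_1ce445_ple.GRE
import Pool.Agent.Work.MP_1ce445_ple.LBE
import Pool.Agent.Work.MP_1ce445_ple.LEV
import Pool.Agent.Work.MP_1ce445_ple.SLV
import Pool.Agent.Work.MP_1ce445_ple.PEV

/-!
Assembly: the plateaus `M ≥ 2` for all even `n`.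
-/

namespace Pool.Agent.Work.MP_1ce445_ple

open Finset Pool.Agent.Work.MP_1ce445_co_56 Pool.Agent.Work.MP_1ce445_lin
  Pool.Agent.Work.MP_1ce445_fx Pool.Agent.Work.MP_1ce445_stm Pool.Agent.Work.MP_1ce445_plt
  Pool.Agent.Work.MP_1ce445_pln

theorem h_CRX : Stmt_CRX := stmt_CRX stmt_PSI stmt_BLO
theorem h_GRE : Stmt_GRE := stmt_GRE stmt_CNM
theorem h_LBE : Stmt_LBE := stmt_LBE stmt_RW1 stmt_RW2 h_GRE
theorem h_LEV : Stmt_LEV := stmt_LEV h_CRX stmt_ABS h_LBE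
theorem h_SLV : Stmt_SLV := stmt_SLV h_LEV

/-- The plateau theorem for all even `n`. -/
theorem h_PEV : Stmt_PEV := stmt_PEV h_UPV h_SLV

end Pool.Agent.Work.MP_1ce445_ple
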