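import Pool.Agent.Work.MP_1ce445_pln.Interface
import Pool.Agent.Work.MP_1ce445_plt.Interface2

/-!
THE PLATEAUS `M ≥ 2` FOR ALL EVEN `n` (helper28). The theorem of `MP_1ce445_pln` for all even `n` (there `2M ∣ n`). Only the
lower half is new. `n = 2 M q - 2 d`, `0 ≤ d < M`. In this file `m = M - 1`, `m ≥ 1`, the parts are `Fin (m + 1)`.

The construction. Part `0` has `2 (q - d)` vertices, the others `2 q`. Start with `2 M` blocks of `q` vertices, two in every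
part, as in `MP_1ce445_fx/SCR.lean`: the vertices `(B, b)`, `(B', b')` in blocks of different parts get the colour
` (A B B', b + b')`. Delete `2d` vertices `(B₁, u)`, `u ∈ U`, of one block `B₁` of part `0`. In the colour `(A B₁ B, i)` the vertices
` (B, i - u)`, `u ∈ U`, of the block `B` lose their partners. `U = {α_l, α_l + (2l+1) : l < d}`: join `(B, z)` and `(B, z + (2l+1))`,
`z = i - α_l - (2l+1)`, in this colour. These pairs are different for different `i` and `l`, and by a suitable numbering of the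
vertices (PSI) all their labels `lbl` are in a set `Λ` of bounded size. Inside the parts the labels as before, `L` is
disjoint from `Λ`.

One file `Pool/Agent/Work/MP_1ce445_ple/<ID>.lean` per block, `import Pool.Agent.Work.MP_1ce445_ple.Interface`, the
`namespace` and `open` lines of this file, theorem `stmt_<ID> : Stmt_X → Stmt_Y → Stmt_<ID>` with exactly the statements of
the column `uses` as hypotheses, in this order; auxiliary lemmas with the name of the block in front. No straight double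
quotes. Typed files may be imported (`lbl`, `GM1_lbl_symm`, `GS1_ex`, `GS1_un` in `MP_1ce445_fx/GM1.lean`, `GS1.lean`; `SCR_K` in
`MP_1ce445_fx/SCR.lean`; `le_P`, `card_le_gammaT`, `exists_tds`, `IsFactorization.of_adj` in `MP_1ce445_co_56/Basic.lean`).
-/

namespace Pool.Agent.Work.MP_1ce445_ple

open Finset Pool.Agent.Work.MP_1ce445_co_56 Pool.Agent.Work.MP_1ce445_lin
  Pool.Agent.Work.MP_1ce445_fx Pool.Agent.Work.MP_1ce445_stm Pool.Agent.Work.MP_1ce445_plt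
  Pool.Agent.Work.MP_1ce445_pln

/-! ### The colours of the pairs in different parts -/

/-- PSI (200 lines). The bijection is the inverse of `ψ : Bool × ZMod q → Option (ZMod (2q-1))`:
`ψ (false, z) = some j` if `z.val = 2j`, `some (-(j+1))` if `z.val = 2j+1`; `ψ (true, z) = none` if `z.val = q - 1`, otherwise
`some (q - 1 - j)` if `z.val = 2j`, `some (q + j)` if `z.val = 2j+1` (injective: the integers `0, 1, .., q-1` resp. `-1, -2, ..` are
representatives, block `false` is the interval `[-⌊q/2⌋, ⌈q/2⌉ - 1]`, block `true` is `[⌈q/2⌉, 2q - 2 - ⌊q/2⌋]` and `none`). For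
`δ = 2l+1`, `z.val + δ < q - 1`: the sum of the two values is `-(l+1)` or `l` in block `false`, `l` or `-1-l` modulo `2q-1` in block
`true`. `Λ` = the image of these `2d` values and of the labels of the at most `2 · d · 2d` triples `(b, z, l)` with
`z.val + 2l+1 ≥ q - 1`. `K = 2d + 4d²`. -/
def Stmt_PSI : Prop :=
  ∀ d : ℕ, ∃ K q0 : ℕ, ∀ q : ℕ, q0 ≤ q →
    ∃ (Φ : Option (ZMod (2 * q - 1)) ≃ Bool × ZMod q) (Λ : Finset (ZMod (2 * q - 1))),
      Λ.card ≤ K ∧ ∀ (b : Bool) (z : ZMod q) (l : ℕ), l < d →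
        lbl (Φ.symm (b, z)) (Φ.symm (b, z + ((2 * l + 1 : ℕ) : ZMod q))) ∈ Λ

/-- not deleted -/
def Liv {m q : ℕ} (U : Finset (ZMod q)) (z : (Fin (m + 1) × Bool) × ZMod q) : Prop :=
  ¬ (z.1 = (0, false) ∧ z.2 ∈ U)

/-- BLO (250 lines; model `stmt_SCR`; `SCR_K` for `M = m + 1`). `B₁ = (0, false)`; `α_l = 4 (d+1) l`, `U = {α_l, α_l + 2l+1 : l < d}`, `q` large
(`q ≥ 8 (d+1)²`): the `2d` elements are different, and `2l+1 + 2l'+1`, `2l+1 - (2l'+1)` (`l ≠ l'`) are not `0` in `ZMod q`.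
`e : {a : ZMod (2m+1) // a ≠ 0} × ZMod q ≃ Fin (2mq)`. `χ (B,b) (B',b')`: if `B.1 ≠ B'.1`: `some (e (A B B', b + b'))`; if `B = B'`,
`B.1 ≠ 0` and `b' = b + (2l+1)`, `l < d`: `some (e (A B₁ B, b + α_l + (2l+1)))`; if `B = B'`, `B.1 ≠ 0` and `b = b' + (2l+1)`:
`some (e (A B₁ B, b' + α_l + (2l+1)))`; otherwise `none`. Perfect: given `(B,b)` alive and the colour `(a,i)`, `a ≠ 0`; `B'` the block
with `A B B' = a` (`B'.1 ≠ B.1` as `a ≠ 0`). If `B' ≠ B₁` or `i - b ∉ U`: the only partner is `(B', i - b)` (a partner in `B` would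
need `A B₁ B = a`, so `B' = B₁`, and `i - b ∈ U`). If `B' = B₁` and `i - b = α_l + (2l+1)`: the partner is `(B, b + (2l+1))`; if
`i - b = α_l`: `(B, b - (2l+1))`. -/
def Stmt_BLO : Prop :=
  ∀ m d : ℕ, 1 ≤ m → ∃ q0 : ℕ, ∀ q : ℕ, q0 ≤ q →
    ∃ (U : Finset (ZMod q))
      (χ : ((Fin (m + 1) × Bool) × ZMod q) → ((Fin (m + 1) × Bool) × ZMod q) →
        Option (Fin (2 * m * q))),
      U.card = 2 * d ∧ (∀ u v, χ u v = χ v u) ∧ (∀ u, χ u u = none) ∧
      (∀ u v, Liv U u → Liv U v → u.1.1 ≠ v.1.1 → χ u v ≠ none) ∧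
      (∀ u c, Liv U u → ∃ v, Liv U v ∧ χ u v = some c) ∧
      (∀ u v w c, Liv U u → Liv U v → Liv U w → χ u v = some c → χ u w = some c → v = w) ∧
      ∀ u v, Liv U u → Liv U v → u.1.1 = v.1.1 → χ u v ≠ none →
        u.1 = v.1 ∧ u.1.1 ≠ 0 ∧ ∃ l : ℕ, l < d ∧
          (v.2 = u.2 + ((2 * l + 1 : ℕ) : ZMod q) ∨ u.2 = v.2 + ((2 * l + 1 : ℕ) : ZMod q))

/-- the vertices: part `0`, and the parts `1, …, m` -/
abbrev VE (m q d : ℕ) : Type :=
  Option (ZMod (2 * (q - d) - 1)) ⊕ (Fin m × Option (ZMod (2 * q - 1)))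

/-- the part of a vertex -/
def pe {m q d : ℕ} : VE m q d → Fin (m + 1)
  | Sum.inl _ => 0
  | Sum.inr u => u.1.succ

/-- A colouring of all pairs in different parts and of some pairs inside parts, by perfect matchings; the labels of the
pairs inside parts are in `Λ`. -/
structure Crx (m q d : ℕ) (Λ : Finset (ZMod (2 * q - 1)))
    (χ : VE m q d → VE m q d → Option (Fin (2 * m * q))) : Prop where
  sym : ∀ u v, χ u v = χ v u
  irr : ∀ u, χ u u = none
  crs : ∀ u v, pe u ≠ pe v → χ u v ≠ none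
  ex : ∀ u c, ∃ v, χ u v = some c
  un : ∀ u v w c, χ u v = some c → χ u w = some c → v = w
  rep : ∀ u v, pe u = pe v → χ u v ≠ none →
    ∃ i x y, u = Sum.inr (i, x) ∧ v = Sum.inr (i, y) ∧ lbl x y ∈ Λ

/-- CRX (150 lines; uses PSI BLO). `τ : VE m q d → (Fin (m+1) × Bool) × ZMod q`, injective with image the `z` with `Liv U z`:
part `0` by a bijection of `Option (ZMod (2(q-d)-1))` and the `(b, z) : Bool × ZMod q` with `¬ (b = false ∧ z ∈ U)` (`2q - 2d` elements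
both), the part `i.succ` by `Φ` of PSI. `χ u v = χ' (τ u) (τ v)` (`lbl` is symmetric). -/
def Stmt_CRX : Prop :=
  ∀ m d : ℕ, 1 ≤ m → ∃ K q0 : ℕ, ∀ q : ℕ, q0 ≤ q →
    ∃ (Λ : Finset (ZMod (2 * q - 1))) (χ : VE m q d → VE m q d → Option (Fin (2 * m * q))),
      Λ.card ≤ K ∧ Crx m q d Λ χ

/-! ### The graphs -/

/-- The situation: `c` colours `χ`, `t` ordinary and `M` special labels `ins` inside the parts. -/
structure Stru {V : Type} (M c t r : ℕ) (pt : V → Fin M) (χ : V → V → Option (Fin c))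
    (ins : V → V → Option (Fin t ⊕ Fin M)) : Prop where
  csym : ∀ u v, χ u v = χ v u
  cirr : ∀ u, χ u u = none
  ccrs : ∀ u v, pt u ≠ pt v → χ u v ≠ none
  cex : ∀ u a, ∃ v, χ u v = some a
  cun : ∀ u v w a, χ u v = some a → χ u w = some a → v = w
  isym : ∀ u v, ins u v = ins v u
  iirr : ∀ u, ins u u = none
  iin : ∀ u v, ins u v ≠ none → pt u = pt v ∧ χ u v = none
  iex : ∀ u b, ∃ v, ins u v = some b
  iun : ∀ u v w b, ins u v = some b → ins u w = some b → v = w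
  good : ∀ (j : Fin M) (T : Finset V), (∀ v ∈ T, pt v = j) → T.card ≤ r - 1 →
    ∃ x, pt x = j ∧ x ∉ T ∧ ∀ v ∈ T, ∃ l, ins x v = some (Sum.inl l)

/-- ABS (250 lines; models `MP_1ce445_fx/GS1.lean`, `GS2.lean`, `GS3.lean`). The factors, index type `Fin c ⊕ (Fin t ⊕ Fin M)`: `inl a`: `χ u v = some a`;
`inr (inl l)`: `ins u v = some (inl l)`; `inr (inr j)`: `ins u v = some (inr j)`, or `u ≠ v`, `pt u = pt v = j`, `χ u v = none`, `ins u v = none`.
A factorization; the first two kinds are perfect matchings (`GS2_match`). Factor `j`: a vertex outside part `j` has exactly one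
neighbour, also outside part `j`; so a total dominating set `S` contains everything outside part `j`. The neighbours of the
vertices in part `j` are in part `j`; if `S` has at most `r - 1` elements there then by `good` some `x` in part `j` has no neighbour
in `S`. -/
def Stmt_ABS : Prop :=
  ∀ (V : Type) [Fintype V] [DecidableEq V] (M c t r : ℕ) (pt : V → Fin M)
    (χ : V → V → Option (Fin c)) (ins : V → V → Option (Fin t ⊕ Fin M)), 1 ≤ r →
    Stru M c t r pt χ ins →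
    Fintype.card V ^ (c + t) *
      ∏ j, (Fintype.card V - (univ.filter (fun v => pt v = j)).card + r) ≤
      P (Fintype.card V) (c + t + M)

/-! ### Labels -/

/-- GRE (80 lines; model `MP_1ce445_plt/GRD.lean`, uses `fx.Stmt_CNM` like it). Every label excludes at most `m` elements `v` (one for every `t ∈ T`). -/
def Stmt_GRE : Prop :=
  ∀ (q m K : ℕ) (T : Finset (Option (ZMod (2 * q - 1)))) (Λ : Finset (ZMod (2 * q - 1)))
    (j : Fin 3), 2 ≤ q → T.card ≤ m → Λ.card ≤ K →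
    ∃ J : Finset (ZMod (2 * q - 1)), 2 * (q / 3) ≤ (m ^ 2 + 1) * J.card + (K + 2) * m + 1 ∧
      (∀ v ∈ J, cls (some v) = j ∧ some v ∉ T ∧ 0 ∉ labs T v ∧ Disjoint (labs T v) Λ) ∧
      ∀ v ∈ J, ∀ v' ∈ J, v ≠ v' → Disjoint (labs T v) (labs T v')

/-- LBE (250 lines; uses `plt.Stmt_RW1` `plt.Stmt_RW2` GRE): copy of `LBR_strong` in `MP_1ce445_plt/LBR.lean` with `Λ`: `L` = `L₀ ∖ ({0} ∪ Λ)` and further labels
not in `{0} ∪ Λ`, `m` altogether (`m ≤ (1-ε) 2q ≤ 2q - 2 - K`). -/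
def Stmt_LBE : Prop :=
  ∀ (K : ℕ) (ε : ℝ), 0 < ε → ε < 1 → ∃ q0 : ℕ, ∀ q m r : ℕ, q0 ≤ q → 1 ≤ r →
    (m : ℝ) ≤ (1 - ε) * (2 * q) →
    1 ≤ (2 * (q : ℝ)) ^ (1 - ε) * ((m : ℝ) / (2 * q)) ^ (r - 1) →
    ∀ Λ : Finset (ZMod (2 * q - 1)), Λ.card ≤ K →
    ∃ L : Finset (ZMod (2 * q - 1)), L.card = m ∧ Disjoint L Λ ∧ Good r q 1 one_pos L

/-- LEV (200 lines; uses CRX ABS LBE). `L₁ ⊆ ZMod (2q-1)` from LBE (for `ε`, `Λ`), `L₀ ⊆ ZMod (2(q-d)-1)` from LBE for `q - d`, `K = 0`, `ε/2` and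
`Λ = ∅`. Label functions `f₁ : ZMod (2q-1) → Option (Fin t ⊕ Fin (m+1))`: a bijection of `L₁` and the `inl l`, of `m + 1` further labels
outside `L₁ ∪ Λ` and the `inr j`, `none` otherwise; `f₀` likewise. `ins u v` for `u ≠ v`: `f₀ (lbl x y)` in part `0`, `f₁ (lbl x y)` in a part
`i.succ`, `none` for different parts. `Good` gives `good` (`j : Fin 3` and `Fin 1` arbitrary). `VE m q d` has
`2 (m+1) q - 2 d` elements. -/
def Stmt_LEV : Prop :=
  ∀ m d : ℕ, 1 ≤ m → d ≤ m → ∀ ε : ℝ, 0 < ε → ε < 1 → ∃ q0 : ℕ, ∀ q t r : ℕ, q0 ≤ q → 1 ≤ r →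
    (t : ℝ) ≤ (1 - ε) * (2 * q) →
    1 ≤ (2 * (q : ℝ)) ^ (1 - ε) * ((t : ℝ) / (2 * q)) ^ (r - 1) →
    (2 * (m + 1) * q - 2 * d) ^ (2 * m * q + t) *
      ((2 * m * q + r) * (2 * m * q - 2 * d + r) ^ m) ≤
      P (2 * (m + 1) * q - 2 * d) (2 * m * q + t + (m + 1))

/-! ### Result -/

/-- SLV (200 lines; uses LEV; models `MP_1ce445_plt/FPU.lean`, `SLU.lean`). `M = m + 1`, `q = ⌈n/(2M)⌉`, `2 d = 2 M q - n`, `t = k - M - 2 m q ≥ 2`. With
`τ = tau n k M`: `n τ = M t + M² + 2 d (M-1)`, so `M t ≥ n τ - 3 M²` and `3 M² ≤ n τ`. `ρ = log n/(- log τ) ≥ 1`, `τ ≤ 1/(M+1)`.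
`a = n - n/M + r`: the product `(2mq + r) (2mq - 2d + r)^m = a^M (1 + β/a) (1 - β/(m a))^m ≥ a^M (1 - β²/a²) ≥ (a - ε/4)^M` for large
`n`, `β = 2 d m/M` (Bernoulli). If `t ≥ n^(ε/4)`: `r = ⌊(1-ε/2) ρ⌋ + 1`, the hypothesis of LEV (for `ε/8`) since
` (t/(2q))^(r-1) ≥ τ^(r-1) (1 - 6 M²/(nτ))^(r-1)` up to constants; `r - ε/4 ≥ (1-ε) ρ`. If `t < n^(ε/4)`: `r = 1`,
`τ ≤ n^(ε/3 - 1)`, `(1-ε) ρ ≤ (1-ε)/(1-ε/3) ≤ 1 - ε/2`. -/
def Stmt_SLV : Prop :=
  ∀ M : ℕ, 2 ≤ M → ∀ ε : ℝ, 0 < ε → ε < 1 → ∃ n0 : ℕ, ∀ n k : ℕ, n0 ≤ n → Even n →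
    (M - 1) * n + 3 * M * M ≤ M * k → (k : ℝ) / n ≤ cend M →
    (n : ℝ) ^ (k - M) * (n - n / M + (1 - ε) * (Real.log n / (- Real.log (tau n k M)))) ^ M ≤
      (P n k : ℝ)

/-- PEV (80 lines; uses `pln.Stmt_UPV` SLV): copy of `MP_1ce445_pln/PLV.lean` without the exact value (`PL1_root`-like lemma). -/
def Stmt_PEV : Prop :=
  ∀ M : ℕ, 2 ≤ M → ∀ ε : ℝ, 0 < ε → ε < 1 → ∃ n0 : ℕ, ∀ n k : ℕ, n0 ≤ n → Even n →
    (M - 1) * n + 3 * M * M ≤ M * k → (k : ℝ) / n ≤ cend M →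
    ∃ R : ℝ, 0 ≤ R ∧ (P n k : ℝ) = (n : ℝ) ^ (k - M) * (n - n / M + R) ^ M ∧
      (1 - ε) * (Real.log n / (- Real.log (tau n k M))) ≤ R ∧
      R ≤ (1 + ε) * (Real.log n / (- Real.log (tau n k M))) + 1

end Pool.Agent.Work.MP_1ce445_ple
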